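import Mathlib
import Pool.Agent.W262.RK.Stm2

/-!
# Joint averages of `2 ^ rank` over several families with full 2-torsion: definitions

`cls i j` is the class of the linear form `j` for the curve `i`: `none` if the form does not occur,
`some 3` if it is a common factor (twist), `some k` with `k ≠ 3` if it divides only `F k`.
-/

set_option autoImplicit false

namespace Pool.Agent.L7h19.RJ

open Finset Pool.Agent.W262.RK

/-- the local conditions; class `none`: good reduction -/
def LLo (c : Option (Fin 4)) (κ : Fin 3 → ℤ) (neg : Bool) (p : ℕ) (v w h g : Bool) : Prop :=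
  match c with
  | none => v = false ∧ w = false
  | some c => LL c κ neg p v w h g

/-- the local conditions for the tuple `s` -/
def LLso {J : Type} (cls : J → Option (Fin 4)) (κ : J → Fin 3 → ℤ) (s : J → ℕ) (E : Finset ℕ)
    (p : ℕ) (v w h g : Bool) : Prop :=
  ∀ j, p ∣ s j → LLo (cls j) (κ j) (decide (p ∈ E)) p v w h g

/-- the pairing -/
def pr (v x : Bool × Bool) : Bool := xor (x.1 && v.1) (x.2 && v.2)

/-- the allowed types for one curve -/
def Al0 (c : Option (Fin 4)) (v x : Bool × Bool) : Bool :=
  match c with
  | none => decide (v = (false, false)) && decide (x = (false, false))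
  | some c => if c = 3 then true else
      (decide (v = (false, false)) || decide (v = ec c)) &&
      (decide (x = (false, false)) || decide (x = (ec c).swap))

/-- the weight for one curve -/
noncomputable def wo (c : Option (Fin 4)) : ℝ :=
  match c with
  | none => 1
  | some c => if c = 3 then 1 / 4 else 1 / 2

/-- the constant of the first symbol in the class `3` -/
def kH (k : Fin 3 → ℤ) (v : Bool × Bool) : ℤ :=
  if v = (true, false) then k 0 else if v = (false, true) then k 0 * k 1
  else if v = (true, true) then k 1 else 1

/-- the constant of the second symbol in the class `3` -/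
def kG (k : Fin 3 → ℤ) (v : Bool × Bool) : ℤ :=
  if v = (true, false) then k 0 * k 2 else if v = (false, true) then -k 0
  else if v = (true, true) then -k 2 else 1

/-- the constant for one curve -/
def ko (c : Option (Fin 4)) (k : Fin 3 → ℤ) (v x : Bool × Bool) : ℤ :=
  match c with
  | none => 1
  | some c => if c = 3 then (if x.1 = true then kH k v else 1) * (if x.2 = true then kG k v else 1)
      else if v = (false, false) ∨ x = (false, false) then 1 else k 0

variable {ι : Type} [Fintype ι] [DecidableEq ι]

/-- the pairing of vectors -/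
def PR (v x : ι → Bool × Bool) : Bool :=
  decide (Odd (univ.filter (fun i => pr (v i) (x i) = true)).card)

/-- the allowed types -/
def AlJ (c : ι → Option (Fin 4)) (v x : ι → Bool × Bool) : Bool :=
  decide ((∀ i, Al0 (c i) (v i) (x i) = true) ∧ PR v x = false)

variable {J : Type} [Fintype J] [DecidableEq J]

/-- is the form a twist form of one of the curves? -/
def tw (cls : ι → J → Option (Fin 4)) (j : J) : Fin 4 := if ∃ i, cls i j = some 3 then 3 else 0

/-- the product of the local counts, averaged over the signs -/
noncomputable def NBj (cls : ι → J → Option (Fin 4)) (κ : ι → J → Fin 3 → ℤ) (s : J → ℕ) : ℝ :=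
  (1 / 2) ^ (P3 (tw cls) s).card * ∑ E ∈ (P3 (tw cls) s).powerset,
    ∏ i, (NL (∏ j, s j) (LLso (cls i) (κ i) s E) : ℝ)

/-- the index set: `(j, v, χ)` -/
def IJ (cls : ι → J → Option (Fin 4)) : Type :=
  {a : J × (ι → Bool × Bool) × (ι → Bool × Bool) // AlJ (fun i => cls i a.1) a.2.1 a.2.2 = true}

instance (cls : ι → J → Option (Fin 4)) : Fintype (IJ cls) := by unfold IJ; infer_instance

instance (cls : ι → J → Option (Fin 4)) : DecidableEq (IJ cls) :=
  fun a b => decidable_of_iff (a.1 = b.1) (Subtype.ext_iff.symm)

/-- the weights -/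
noncomputable def wJ (cls : ι → J → Option (Fin 4)) (a : IJ cls) : ℝ := ∏ i, wo (cls i a.1.1)

/-- the symbol `(d a / d a')` occurs if `χ_{a'}(v_a) = 1` -/
def LJ (cls : ι → J → Option (Fin 4)) (a a' : IJ cls) : Bool := PR a.1.2.1 a'.1.2.2

/-- the constants -/
def κJ (cls : ι → J → Option (Fin 4)) (κ : ι → J → Fin 3 → ℤ) (a : IJ cls) : ℤ :=
  ∏ i, ko (cls i a.1.1) (κ i a.1.1) (a.1.2.1 i) (a.1.2.2 i)

end Pool.Agent.L7h19.RJ
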