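import Mathlib
import Pool.Agent.L7h19.RJ.Defs
import Pool.Agent.W262.RK.F4b
import Pool.Agent.W125.RK2.SUBB
import Pool.Agent.W342.RK2.LocL
import Pool.Agent.W214.RK2.Desc4

/-!
# Joint moments of `2 ^ rank`: the bound for one curve
-/

set_option autoImplicit false

namespace Pool.Agent.L7h19.RJ

open Finset Pool.Agent.W262.RK

variable {J : Type} [Fintype J] [DecidableEq J]

/-- the forms of the class `k` and the common factors -/
def fsJ (c : J → Option (Fin 4)) (k : Fin 3) : Finset J :=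
  univ.filter (fun l => c l = some k.castSucc ∨ c l = some 3)

/-- `F_k(t)` -/
def FJ (c : J → Option (Fin 4)) (a : Fin 3 → ℤ) (α β : J → ℤ) (t : ℤ) (k : Fin 3) : ℤ :=
  a k * ∏ l ∈ fsJ c k, ff α β t l

/-- the forms that occur -/
abbrev Jc (c : J → Option (Fin 4)) : Type := {j : J // c j ≠ none}

/-- the class -/
def cR (c : J → Option (Fin 4)) (j : Jc c) : Fin 4 :=
  (c j.1).get (Option.isSome_iff_ne_none.2 j.2)

omit [Fintype J] [DecidableEq J] in
lemma cR_spec (c : J → Option (Fin 4)) (j : Jc c) : c j.1 = some (cR c j) :=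
  (Option.some_get _).symm

lemma FJ_eq (c : J → Option (Fin 4)) (a : Fin 3 → ℤ) (α β : J → ℤ) (t : ℤ) (k : Fin 3) :
    F4 (cR c) a (fun j : Jc c => α j.1) (fun j : Jc c => β j.1) t k = FJ c a α β t k := by
  unfold F4 FJ
  congr 1
  refine prod_bij (fun l _ => l.1) (fun l hl => ?_) (fun l _ l' _ h => Subtype.ext h)
    (fun l hl => ?_) (fun l _ => rfl)
  · unfold fsJ
    rw [mem_filter]
    refine ⟨mem_univ _, ?_⟩
    rcases (mem_filter.1 hl).2 with h | h
    · left; rw [cR_spec c l, h]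
    · right; rw [cR_spec c l, h]
  · unfold fsJ at hl
    rw [mem_filter] at hl
    have hne : c l ≠ none := by
      rcases hl.2 with h | h <;> rw [h] <;> simp
    refine ⟨⟨l, hne⟩, ?_, rfl⟩
    unfold fs
    rw [mem_filter]
    refine ⟨mem_univ _, ?_⟩
    have h2 := cR_spec c ⟨l, hne⟩
    rcases hl.2 with h | h
    · left
      have h3 : some (cR c ⟨l, hne⟩) = some k.castSucc := by rw [← h2]; exact h
      exact Option.some.inj h3
    · right
      have h3 : some (cR c ⟨l, hne⟩) = some 3 := by rw [← h2]; exact h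
      exact Option.some.inj h3

/-- the constants -/
def kapJ (c : J → Option (Fin 4)) (a : Fin 3 → ℤ) (α β : J → ℤ) (j : J) (k : Fin 3) : ℤ :=
  if h : c j ≠ none then
    kap4 (cR c) a (fun j : Jc c => α j.1) (fun j : Jc c => β j.1) ⟨j, h⟩ k else 1

lemma kapJ_val (c : J → Option (Fin 4)) (a : Fin 3 → ℤ) (α β : J → ℤ) (j : Jc c) :
    kapJ c a α β j.1 =
      kap4 (cR c) a (fun j : Jc c => α j.1) (fun j : Jc c => β j.1) j := by
  funext k
  unfold kapJ
  rw [dif_pos j.2]

lemma kapJ_ne (c : J → Option (Fin 4)) (a : Fin 3 → ℤ) (α β : J → ℤ) (hα : ∀ j, α j ≠ 0)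
    (ha : ∀ k, a k ≠ 0) (hR : ∀ j l, j ≠ l → Res α β j l ≠ 0) (j : J) (k : Fin 3) :
    kapJ c a α β j k ≠ 0 := by
  unfold kapJ
  split_ifs with h
  · exact kap4_ne (cR c) a (fun j : Jc c => α j.1) (fun j : Jc c => β j.1) (fun j => hα j.1) ha
      (fun j l hjl => hR j.1 l.1 (fun h => hjl (Subtype.ext h))) _ _
  · exact one_ne_zero

lemma NL_le {m m' : ℕ} (hm : m ∣ m') (hm' : m' ≠ 0)
    {L L' : ℕ → Bool → Bool → Bool → Bool → Prop}
    (h : ∀ d1 d2, d1 ∣ m → d2 ∣ m →
      (∀ p ∈ m.primeFactors, L p (dv p d1) (dv p d2) (sgn p d1) (sgn p d2)) →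
      ∀ p ∈ m'.primeFactors, L' p (dv p d1) (dv p d2) (sgn p d1) (sgn p d2)) :
    NL m L ≤ NL m' L' := by
  classical
  unfold NL
  refine card_le_card fun d hd => ?_
  rw [mem_filter, mem_product, Nat.mem_divisors, Nat.mem_divisors] at hd ⊢
  refine ⟨⟨⟨?_, hm'⟩, ⟨?_, hm'⟩⟩, ?_⟩
  · exact_mod_cast hd.1.1.1.trans hm
  · exact_mod_cast hd.1.2.1.trans hm
  · exact h d.1 d.2 hd.1.1.1 hd.1.2.1 hd.2

omit [Fintype J] [DecidableEq J] in
lemma s1_val {c : J → Option (Fin 4)} (α β : J → ℤ) (z y : ℕ) (t : ℤ) (j : Jc c) :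
    s1 (fun j : Jc c => α j.1) (fun j : Jc c => β j.1) z y t j = s1 α β z y t j.1 := rfl

omit [Fintype J] [DecidableEq J] in
lemma s2_val {c : J → Option (Fin 4)} (α β : J → ℤ) (z y : ℕ) (t : ℤ) (j : Jc c) :
    s2 (fun j : Jc c => α j.1) (fun j : Jc c => β j.1) z y t j = s2 α β z y t j.1 := rfl

lemma prod_Jc (c : J → Option (Fin 4)) (s : J → ℕ) :
    (∏ j : Jc c, s j.1) = ∏ j ∈ univ.filter (fun j => c j ≠ none), s j := by
  rw [← Finset.prod_subtype (p := fun j => c j ≠ none)]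
  intro j
  rw [mem_filter]
  exact ⟨fun h => h.2, fun h => ⟨mem_univ _, h⟩⟩

lemma sum_Jc (c : J → Option (Fin 4)) (f : J → ℕ) :
    (∑ j : Jc c, f j.1) = ∑ j ∈ univ.filter (fun j => c j ≠ none), f j := by
  rw [← Finset.sum_subtype (p := fun j => c j ≠ none)]
  intro j
  rw [mem_filter]
  exact ⟨fun h => h.2, fun h => ⟨mem_univ _, h⟩⟩

/-- the rank is bounded by the local count -/
theorem rankj {c : J → Option (Fin 4)} {a : Fin 3 → ℤ} {α β : J → ℤ} {z y X k : ℕ}
    (hB : Big4 a α β z) (ha : ∀ k, a k ≠ 0) (hκ0 : ∀ j l, kapJ c a α β j l ≠ 0)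
    (hκ : ∀ j l, (kapJ c a α β j l).natAbs ≤ z) {t : ℤ}
    (hF : FJ c a α β t 0 - FJ c a α β t 1 = FJ c a α β t 2)
    (h0 : ∀ j, ff α β t j ≠ 0) (hb : ∀ j, (ff α β t j).natAbs ≤ X ^ 2) (hX : 1 ≤ X) (hy : 1 ≤ y)
    (hk : X < (y + 1) ^ k) (E : Finset ℕ)
    (hE : ∀ j p, c j = some 3 → p.Prime → p ∣ s1 α β z y t j →
      (p ∈ E ↔ jacobiSym (ff α β t j / p) p = -1)) :
    2 ^ Module.finrank ℤ (EAB (FJ c a α β t 0) (FJ c a α β t 1)).toAffine.Point ≤
      4 ^ (z + 2) * (16 ^ Fintype.card J) ^ k * 4 ^ (∑ j, (s2 α β z y t j).primeFactors.card) *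
        NL (∏ j, s1 α β z y t j) (LLso c (kapJ c a α β) (s1 α β z y t) E) := by
  classical
  set α' : Jc c → ℤ := fun j => α j.1 with hα'
  set β' : Jc c → ℤ := fun j => β j.1 with hβ'
  have hcard : Fintype.card (Jc c) ≤ Fintype.card J := Fintype.card_subtype_le _
  have hB' : Big4 a α' β' z :=
    ⟨⟨by have := hB.1.1; omega, fun p hp hz => ⟨fun j => (hB.1.2 p hp hz).1 j.1,
      fun j l hjl => (hB.1.2 p hp hz).2 j.1 l.1 (fun h => hjl (Subtype.ext h))⟩⟩, hB.2⟩
  have hr := rank4 Pool.Agent.W214.RK2.desc4 Pool.Agent.W342.RK2.xcl Pool.Agent.W342.RK2.locl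
    (cls := cR c) (a := a) (α := α') (β := β') (z := z) (y := y) (X := X) (k := k) hB' ha
    (fun j l => by
      have := hκ0 j.1 l
      rwa [kapJ_val] at this)
    (fun j l => by
      have := hκ j.1 l
      rwa [kapJ_val] at this) (t := t)
    (by rw [FJ_eq, FJ_eq, FJ_eq]; exact hF) (fun j => h0 j.1) (fun j => hb j.1) hX hy hk
  rw [FJ_eq, FJ_eq] at hr
  have hmem : s1 α β z y t ∈ Tup J z y := s1_mem hB.1 t
  refine hr.trans ?_
  refine Nat.mul_le_mul (Nat.mul_le_mul (Nat.mul_le_mul_left _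
    (Nat.pow_le_pow_left (Nat.pow_le_pow_right (by norm_num) hcard) _))
    (Nat.pow_le_pow_right (by norm_num) ?_)) ?_
  · have h5 : ∑ j : Jc c, (s2 α' β' z y t j).primeFactors.card =
        ∑ j ∈ univ.filter (fun j => c j ≠ none), (s2 α β z y t j).primeFactors.card :=
      sum_Jc c (fun j => (s2 α β z y t j).primeFactors.card)
    rw [h5]
    exact sum_le_sum_of_subset (filter_subset _ _)
  · have hprod : (∏ j : Jc c, s1 α' β' z y t j) =
        ∏ j ∈ univ.filter (fun j => c j ≠ none), s1 α β z y t j :=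
      prod_Jc c (s1 α β z y t)
    have hdvd : (∏ j : Jc c, s1 α' β' z y t j) ∣ ∏ j, s1 α β z y t j := by
      rw [hprod]
      exact prod_dvd_prod_of_subset _ _ _ (filter_subset _ _)
    have hne : (∏ j, s1 α β z y t j) ≠ 0 := prod_ne_zero_iff.2 fun j _ => (Tup_pos hmem j).ne'
    refine NL_le hdvd hne fun d1 d2 hd1 hd2 hL p hp => ?_
    have hpp := Nat.prime_of_mem_primeFactors hp
    intro j hj
    rcases hcj : c j with _ | e
    · -- the form does not occur
      have hnd : ¬ p ∣ ∏ j : Jc c, s1 α' β' z y t j := by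
        intro h
        obtain ⟨l, _, hl⟩ := (hpp.prime.dvd_finsetProd_iff _).1 h
        have hl' : p ∣ s1 α β z y t l.1 := hl
        have hjl : l.1 ≠ j := fun h => l.2 (by rw [h]; exact hcj)
        have h4 := (mem_Tup'.1 hmem).2 l.1 j hjl
        exact hpp.one_lt.ne' (Nat.dvd_one.1 (h4 ▸ Nat.dvd_gcd hl' hj))
      have hf : ∀ d : ℕ, d ∣ ∏ j : Jc c, s1 α' β' z y t j → dv p (d : ℤ) = false := by
        intro d hd
        unfold dv
        rw [decide_eq_false_iff_not]
        intro h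
        exact hnd ((Int.natCast_dvd_natCast.1 h).trans hd)
      exact ⟨hf d1 hd1, hf d2 hd2⟩
    · have hne' : c j ≠ none := by rw [hcj]; simp
      have hpm : p ∈ (∏ j : Jc c, s1 α' β' z y t j).primeFactors := by
        rw [Nat.mem_primeFactors]
        refine ⟨hpp, ?_, fun h => hne (Nat.eq_zero_of_zero_dvd (h ▸ hdvd))⟩
        exact dvd_trans (b := s1 α' β' z y t ⟨j, hne'⟩) hj (dvd_prod_of_mem _ (mem_univ _))
      have h6 := hL p hpm ⟨j, hne'⟩ hj
      have h7 : cR c ⟨j, hne'⟩ = e := by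
        have h8 := cR_spec c ⟨j, hne'⟩
        have h9 : some (cR c ⟨j, hne'⟩) = some e := by rw [← h8]; exact hcj
        exact Option.some.inj h9
      rw [h7] at h6
      show LL e (kapJ c a α β j) (decide (p ∈ E)) p _ _ _ _
      rw [show kapJ c a α β j = kap4 (cR c) a α' β' ⟨j, hne'⟩ from kapJ_val c a α β ⟨j, hne'⟩]
      by_cases he : e = 3
      · subst he
        have h10 : (p ∈ neg3 (cR c) α' β' t (s1 α' β' z y t)) ↔ p ∈ E := by
          rw [hE j p hcj hpp hj]
          unfold neg3 P3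
          rw [mem_filter, Nat.mem_primeFactors]
          constructor
          · rintro ⟨_, l, hl3, hl, hl2⟩
            have hl' : p ∣ s1 α β z y t l.1 := hl
            have : l.1 = j := by
              by_contra hne3
              have h4 := (mem_Tup'.1 hmem).2 l.1 j hne3
              exact hpp.one_lt.ne' (Nat.dvd_one.1 (h4 ▸ Nat.dvd_gcd hl' hj))
            have h11 : ff α' β' t l = ff α β t j := by
              rw [← this]
              rfl
            rwa [h11] at hl2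
          · intro h5
            refine ⟨⟨hpp, ?_, ?_⟩, ⟨j, hne'⟩, h7, hj, h5⟩
            · exact dvd_trans (b := s1 α' β' z y t ⟨j, hne'⟩) hj
                (dvd_prod_of_mem _ (mem_filter.2 ⟨mem_univ _, h7⟩))
            · exact prod_ne_zero_iff.2 fun l _ => (Tup_pos hmem l.1).ne'
        have h12 : decide (p ∈ E) = decide (p ∈ neg3 (cR c) α' β' t (s1 α' β' z y t)) :=
          decide_eq_decide.2 h10.symm
        rw [h12]
        exact h6
      · rw [Pool.Agent.W125.RK2.LL_neg he _ (decide (p ∈ E))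
          (decide (p ∈ neg3 (cR c) α' β' t (s1 α' β' z y t)))]
        exact h6

end Pool.Agent.L7h19.RJ
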