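import Mathlib
import Pool.Agent.L7h19.RJ.Defs

/-!
# Joint averages of `2 ^ rank`: pairwise orthogonal types
-/

set_option autoImplicit false

namespace Pool.Agent.L7h19.RJ

open Finset Module

section linalg

variable (m : Type) [Fintype m] [DecidableEq m]

/-- the symplectic form -/
noncomputable def Om : LinearMap.BilinForm (ZMod 2) ((m → ZMod 2) × (m → ZMod 2)) :=
  LinearMap.mk₂ (ZMod 2) (fun a b => ∑ i, (a.1 i * b.2 i + a.2 i * b.1 i))
    (fun a a' b => by
      simp only [Prod.fst_add, Prod.snd_add, Pi.add_apply]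
      rw [← sum_add_distrib]
      exact sum_congr rfl fun i _ => by ring)
    (fun c a b => by
      simp only [Prod.smul_fst, Prod.smul_snd, Pi.smul_apply, smul_eq_mul]
      rw [mul_sum]
      exact sum_congr rfl fun i _ => by ring)
    (fun a b b' => by
      simp only [Prod.fst_add, Prod.snd_add, Pi.add_apply]
      rw [← sum_add_distrib]
      exact sum_congr rfl fun i _ => by ring)
    (fun c a b => by
      simp only [Prod.smul_fst, Prod.smul_snd, Pi.smul_apply, smul_eq_mul]
      rw [mul_sum]
      exact sum_congr rfl fun i _ => by ring)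

lemma Om_apply (a b : (m → ZMod 2) × (m → ZMod 2)) :
    Om m a b = ∑ i, (a.1 i * b.2 i + a.2 i * b.1 i) := rfl

lemma Om_ker : (Om m).ker = ⊥ := by
  rw [eq_bot_iff]
  intro a ha
  rw [LinearMap.mem_ker] at ha
  rw [Submodule.mem_bot]
  have h1 : ∀ b : (m → ZMod 2) × (m → ZMod 2), ∑ i, (a.1 i * b.2 i + a.2 i * b.1 i) = 0 := fun b => by
    rw [← Om_apply, ha]
    rfl
  refine Prod.ext (funext fun j => ?_) (funext fun j => ?_)
  · have := h1 (0, Pi.single j 1)
    simpa [Pi.single_apply] using this
  · have := h1 (Pi.single j 1, 0)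
    simpa [Pi.single_apply] using this

lemma iso_card (U : Finset ((m → ZMod 2) × (m → ZMod 2)))
    (hU : ∀ a ∈ U, ∀ b ∈ U, Om m a b = 0) : U.card ≤ 2 ^ Fintype.card m := by
  classical
  set W : Submodule (ZMod 2) ((m → ZMod 2) × (m → ZMod 2)) :=
    Submodule.span (ZMod 2) (U : Set ((m → ZMod 2) × (m → ZMod 2))) with hW
  have h1 : W ≤ (Om m).orthogonal W := by
    rw [hW, Submodule.span_le]
    intro b hb
    rw [SetLike.mem_coe, LinearMap.BilinForm.mem_orthogonal_iff]
    intro a ha
    show Om m a b = 0
    induction ha using Submodule.span_induction with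
    | mem x hx => exact hU x (by exact_mod_cast hx) b (by exact_mod_cast hb)
    | zero => simp
    | add x y _ _ hx hy => rw [map_add, LinearMap.add_apply, hx, hy, add_zero]
    | smul c x _ hx => rw [map_smul, LinearMap.smul_apply, hx, smul_zero]
  have h2 := LinearMap.BilinForm.finrank_add_finrank_orthogonal' (B := Om m) W
  rw [Om_ker, inf_bot_eq, finrank_bot, add_zero] at h2
  have h3 : finrank (ZMod 2) W ≤ finrank (ZMod 2) ((Om m).orthogonal W) :=
    Submodule.finrank_mono h1
  have h4 : finrank (ZMod 2) ((m → ZMod 2) × (m → ZMod 2)) = 2 * Fintype.card m := by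
    rw [Module.finrank_prod, Module.finrank_fintype_fun_eq_card]
    ring
  have h5 : finrank (ZMod 2) W ≤ Fintype.card m := by omega
  have h6 : Fintype.card W = 2 ^ finrank (ZMod 2) W := by
    have := Module.card_eq_pow_finrank (K := ZMod 2) (V := W)
    simpa [ZMod.card] using this
  have h7 : U.card ≤ Fintype.card W := by
    rw [← Fintype.card_coe]
    exact Fintype.card_le_of_injective
      (fun x : U => (⟨x.1, Submodule.subset_span (by exact_mod_cast x.2)⟩ : W))
      (fun x y h => Subtype.ext (congrArg (fun w : W => w.1) h))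
  calc U.card ≤ Fintype.card W := h7
    _ = 2 ^ finrank (ZMod 2) W := h6
    _ ≤ 2 ^ Fintype.card m := Nat.pow_le_pow_right (by norm_num) h5

end linalg

section types

variable {n : Type} [Fintype n] [DecidableEq n]

/-- bits to numbers -/
def eb (b : Bool) : ZMod 2 := if b = true then 1 else 0

/-- vectors of pairs of bits as vectors -/
def vv (v : n → Bool × Bool) : n × Bool → ZMod 2 := fun q => if q.2 = true then eb (v q.1).2 else eb (v q.1).1

omit [Fintype n] [DecidableEq n] in
lemma vv_inj {v v' : n → Bool × Bool} (h : vv v = vv v') : v = v' := by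
  have e : ∀ b b' : Bool, eb b = eb b' → b = b' := by decide
  funext i
  have h1 := congrFun h (i, false)
  have h2 := congrFun h (i, true)
  simp only [vv, if_true, Bool.false_eq_true, if_false] at h1 h2
  exact Prod.ext (e _ _ h1) (e _ _ h2)

lemma PR_eq (v x : n → Bool × Bool) :
    eb (PR v x) = ∑ q : n × Bool, vv v q * vv x q := by
  rw [Fintype.sum_prod_type]
  have h1 : ∀ i, ∑ b : Bool, vv v (i, b) * vv x (i, b) = eb (pr (v i) (x i)) := by
    intro i
    rw [Fintype.sum_bool]
    simp only [vv, if_true, Bool.false_eq_true, if_false, pr]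
    generalize (v i).1 = a
    generalize (v i).2 = b
    generalize (x i).1 = c
    generalize (x i).2 = d
    revert a b c d
    decide
  rw [Finset.sum_congr rfl fun i _ => h1 i]
  have h2 : ∑ i, eb (pr (v i) (x i)) =
      (((univ.filter (fun i => pr (v i) (x i) = true)).card : ℕ) : ZMod 2) := by
    unfold eb
    rw [← Finset.sum_filter, Finset.sum_const, nsmul_eq_mul, mul_one]
  rw [h2]
  unfold PR eb
  by_cases h : Odd (univ.filter (fun i => pr (v i) (x i) = true)).card
  · simp only [h, decide_true, if_true]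
    exact ((ZMod.natCast_eq_one_iff_odd).2 h).symm
  · simp only [h, decide_false, Bool.false_eq_true, if_false]
    exact ((ZMod.natCast_eq_zero_iff_even).2 (Nat.not_odd_iff_even.1 h)).symm

lemma types_card (U : Finset ((n → Bool × Bool) × (n → Bool × Bool)))
    (hU : ∀ a ∈ U, ∀ b ∈ U, PR a.1 b.2 = PR b.1 a.2) : U.card ≤ 4 ^ Fintype.card n := by
  classical
  have hinj : Function.Injective (fun a : (n → Bool × Bool) × (n → Bool × Bool) =>
      ((vv a.1, vv a.2) : (n × Bool → ZMod 2) × (n × Bool → ZMod 2))) := by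
    intro a b h
    have h' := Prod.mk.inj h
    exact Prod.ext (vv_inj h'.1) (vv_inj h'.2)
  have h1 := iso_card (n × Bool) (U.image (fun a => (vv a.1, vv a.2))) (by
    intro a ha b hb
    obtain ⟨a', ha', rfl⟩ := mem_image.1 ha
    obtain ⟨b', hb', rfl⟩ := mem_image.1 hb
    rw [Om_apply, Finset.sum_add_distrib]
    have e1 : ∑ q : n × Bool, vv a'.2 q * vv b'.1 q = ∑ q : n × Bool, vv b'.1 q * vv a'.2 q :=
      Finset.sum_congr rfl fun q _ => mul_comm _ _
    show ∑ q : n × Bool, vv a'.1 q * vv b'.2 q + ∑ q : n × Bool, vv a'.2 q * vv b'.1 q = 0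
    rw [e1, ← PR_eq, ← PR_eq, hU a' ha' b' hb']
    exact CharTwo.add_self_eq_zero _)
  rw [card_image_of_injective _ hinj] at h1
  refine h1.trans (le_of_eq ?_)
  rw [Fintype.card_prod, Fintype.card_bool, mul_comm, pow_mul]
  norm_num

end types

end Pool.Agent.L7h19.RJ
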