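import Pool.Agent.W125.RK2.COMB4
import Pool.Agent.L7h19.RJ.Iso

/-!
# Joint averages of `2 ^ rank`: the largest unlinked set
-/

set_option autoImplicit false

namespace Pool.Agent.L7h19.RJ

open Finset Pool.Agent.W262.RK
open Pool.Agent.W125.RK2 (T z0 sing Lt sum_W_le Al_sing)

variable {ι : Type} [Fintype ι] [DecidableEq ι] {J : Type} [Fintype J] [DecidableEq J]

lemma Al0_of (c : Fin 4) (hc : c ≠ 3) (v x : Bool × Bool) (h : Al0 (some c) v x = true) :
    Al c v x = true := by
  unfold Al0 at h
  simp only [if_neg hc] at h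
  unfold Al
  rw [if_neg hc]
  exact h

lemma Al0_none {v x : Bool × Bool} (h : Al0 none v x = true) :
    v = (false, false) ∧ x = (false, false) := by
  simpa [Al0] using h

lemma al_of {cls : ι → J → Option (Fin 4)} (a : IJ cls) (i : ι) :
    Al0 (cls i a.1.1) (a.1.2.1 i) (a.1.2.2 i) = true := by
  have h := a.2
  unfold AlJ at h
  exact (of_decide_eq_true h).1 i

omit [DecidableEq ι] in
lemma PR_single (i : ι) (v x : ι → Bool × Bool)
    (h : ∀ i', i' ≠ i → v i' = (false, false) ∨ x i' = (false, false)) :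
    PR v x = pr (v i) (x i) := by
  classical
  unfold PR
  have h1 : univ.filter (fun i' => pr (v i') (x i') = true) =
      if pr (v i) (x i) = true then {i} else ∅ := by
    ext i'
    rw [mem_filter]
    by_cases hi : i' = i
    · subst hi
      split_ifs with h2 <;> simp [h2]
    · have h3 : pr (v i') (x i') = false := by
        rcases h i' hi with h4 | h4 <;> simp [pr, h4]
      split_ifs <;> simp [h3, hi]
  rw [h1]
  cases h2 : pr (v i) (x i) <;> simp

/-- the weight of a twist form -/
lemma fib_tw {cls : ι → J → Option (Fin 4)} {U : Finset (IJ cls)}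
    (hU : ∀ a ∈ U, ∀ a' ∈ U, LJ cls a a' = LJ cls a' a) {j : J}
    (hj : ∀ i, cls i j = none ∨ cls i j = some 3) :
    ∑ a ∈ U.filter (fun a => a.1.1 = j), wJ cls a ≤ 1 := by
  classical
  set X := {i : ι // cls i j = some 3} with hX
  have hw : ∀ a ∈ U.filter (fun a => a.1.1 = j), wJ cls a = (1 / 4 : ℝ) ^ Fintype.card X := by
    intro a ha
    unfold wJ
    rw [(mem_filter.1 ha).2]
    have h1 : ∀ i, wo (cls i j) = if cls i j = some 3 then 1 / 4 else 1 := by
      intro i
      rcases hj i with h | h <;> rw [h] <;> simp [wo]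
    have h2 : Fintype.card X = (univ.filter (fun i => cls i j = some 3)).card :=
      Fintype.card_subtype _
    rw [Finset.prod_congr rfl fun i _ => h1 i, ← Finset.prod_filter, Finset.prod_const, h2]
  set rs : IJ cls → (X → Bool × Bool) × (X → Bool × Bool) :=
    fun a => (fun i => a.1.2.1 i.1, fun i => a.1.2.2 i.1) with hrs
  have hz : ∀ a ∈ U.filter (fun a => a.1.1 = j), ∀ i, cls i j ≠ some 3 →
      a.1.2.1 i = (false, false) ∧ a.1.2.2 i = (false, false) := by
    intro a ha i hi
    have h1 := al_of a i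
    rw [(mem_filter.1 ha).2, (hj i).resolve_right hi] at h1
    exact Al0_none h1
  have hinj : Set.InjOn rs (U.filter (fun a => a.1.1 = j)) := by
    intro a ha b hb h
    rw [mem_coe] at ha hb
    have ha' := (mem_filter.1 ha).2
    have hb' := (mem_filter.1 hb).2
    apply Subtype.ext
    refine Prod.ext (ha'.trans hb'.symm) (Prod.ext ?_ ?_)
    · funext i
      by_cases hi : cls i j = some 3
      · exact congrFun (congrArg Prod.fst h) ⟨i, hi⟩
      · rw [(hz a ha i hi).1, (hz b hb i hi).1]
    · funext i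
      by_cases hi : cls i j = some 3
      · exact congrFun (congrArg Prod.snd h) ⟨i, hi⟩
      · rw [(hz a ha i hi).2, (hz b hb i hi).2]
  have hPR : ∀ a ∈ U.filter (fun a => a.1.1 = j), ∀ b : IJ cls,
      PR a.1.2.1 b.1.2.2 = PR (rs a).1 (rs b).2 := by
    intro a ha b
    unfold PR
    have h1 : (univ.filter (fun i => pr (a.1.2.1 i) (b.1.2.2 i) = true)).card =
        (univ.filter (fun i : X => pr ((rs a).1 i) ((rs b).2 i) = true)).card := by
      rw [← Finset.card_map (Function.Embedding.subtype _)]
      congr 1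
      ext i
      simp only [mem_filter, mem_univ, true_and, mem_map, Function.Embedding.subtype_apply, hrs]
      constructor
      · intro h
        by_cases hi : cls i j = some 3
        · exact ⟨⟨i, hi⟩, h, rfl⟩
        · rw [(hz a ha i hi).1] at h
          simp [pr] at h
      · rintro ⟨i', h, rfl⟩
        exact h
    simp only [h1]
  have hcard : (U.filter (fun a => a.1.1 = j)).card ≤ 4 ^ Fintype.card X := by
    rw [← Finset.card_image_of_injOn hinj]
    apply types_card
    intro t ht t' ht'
    obtain ⟨a, ha, rfl⟩ := mem_image.1 ht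
    obtain ⟨b, hb, rfl⟩ := mem_image.1 ht'
    rw [← hPR a ha b, ← hPR b hb a]
    exact hU a (mem_filter.1 ha).1 b (mem_filter.1 hb).1
  rw [Finset.sum_congr rfl hw, Finset.sum_const, nsmul_eq_mul]
  have h2 : ((U.filter (fun a => a.1.1 = j)).card : ℝ) ≤ 4 ^ Fintype.card X := by
    exact_mod_cast hcard
  calc ((U.filter (fun a => a.1.1 = j)).card : ℝ) * (1 / 4) ^ Fintype.card X
      ≤ 4 ^ Fintype.card X * (1 / 4) ^ Fintype.card X :=
        mul_le_mul_of_nonneg_right h2 (by positivity)
    _ = 1 := by rw [← mul_pow]; norm_num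

/-- the types of the forms which belong to one curve only -/
noncomputable def Si (cls : ι → J → Option (Fin 4)) (U : Finset (IJ cls)) (i : ι) : Finset T :=
  (U.filter (fun a => ∃ c, c ≠ 3 ∧ cls i a.1.1 = some c)).image
    (fun a => (a.1.2.1 i, a.1.2.2 i))

lemma Si_le {cls : ι → J → Option (Fin 4)}
    (h1 : ∀ i j, cls i j ≠ none → cls i j ≠ some 3 → ∀ i', i' ≠ i → cls i' j = none)
    {U : Finset (IJ cls)} (hU : ∀ a ∈ U, ∀ a' ∈ U, LJ cls a a' = LJ cls a' a) (i : ι) :
    ((Si cls U i).filter (fun t => Al 0 t.1 t.2 = true)).card +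
      ((Si cls U i).filter (fun t => Al 1 t.1 t.2 = true)).card +
      ((Si cls U i).filter (fun t => Al 2 t.1 t.2 = true)).card ≤ 6 := by
  classical
  apply sum_W_le
  · intro t ht
    unfold Si at ht
    obtain ⟨a, ha, rfl⟩ := mem_image.1 ht
    obtain ⟨c, hc, hc2⟩ := (mem_filter.1 ha).2
    have h2 := al_of a i
    rw [hc2] at h2
    exact Al_sing c _ (Al0_of c hc _ _ h2)
  · intro t ht t' ht'
    unfold Si at ht ht'
    obtain ⟨a, ha, rfl⟩ := mem_image.1 ht
    obtain ⟨b, hb, rfl⟩ := mem_image.1 ht'
    have h2 : ∀ a ∈ U.filter (fun a => ∃ c, c ≠ 3 ∧ cls i a.1.1 = some c), ∀ i', i' ≠ i →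
        a.1.2.1 i' = (false, false) ∧ a.1.2.2 i' = (false, false) := by
      intro a ha i' hi'
      obtain ⟨c, hc, hc2⟩ := (mem_filter.1 ha).2
      have h3 := h1 i a.1.1 (by rw [hc2]; simp) (by rw [hc2]; simpa using hc) i' hi'
      have h4 := al_of a i'
      rw [h3] at h4
      exact Al0_none h4
    have h3 := hU a (mem_filter.1 ha).1 b (mem_filter.1 hb).1
    unfold LJ at h3
    rw [PR_single i _ _ (fun i' hi' => Or.inl (h2 a ha i' hi').1),
      PR_single i _ _ (fun i' hi' => Or.inl (h2 b hb i' hi').1)] at h3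
    exact h3

/-- the weight of a form that belongs to one curve only -/
lemma fib_one {cls : ι → J → Option (Fin 4)}
    (h1 : ∀ i j, cls i j ≠ none → cls i j ≠ some 3 → ∀ i', i' ≠ i → cls i' j = none)
    {U : Finset (IJ cls)} {j : J} {i : ι} {c : Fin 4} (hc : c ≠ 3) (hj : cls i j = some c) :
    ∑ a ∈ U.filter (fun a => a.1.1 = j), wJ cls a ≤
      (((Si cls U i).filter (fun t => Al c t.1 t.2 = true)).card : ℝ) / 2 := by
  classical
  have hn : ∀ i', i' ≠ i → cls i' j = none :=
    h1 i j (by rw [hj]; simp) (by rw [hj]; simpa using hc)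
  have hw : ∀ a ∈ U.filter (fun a => a.1.1 = j), wJ cls a = 1 / 2 := by
    intro a ha
    unfold wJ
    rw [(mem_filter.1 ha).2, Finset.prod_eq_single i]
    · rw [hj]
      simp [wo, hc]
    · intro i' _ hi'
      rw [hn i' hi']
      rfl
    · intro h
      exact absurd (mem_univ i) h
  have hz : ∀ a ∈ U.filter (fun a => a.1.1 = j), ∀ i', i' ≠ i →
      a.1.2.1 i' = (false, false) ∧ a.1.2.2 i' = (false, false) := by
    intro a ha i' hi'
    have h4 := al_of a i'
    rw [(mem_filter.1 ha).2, hn i' hi'] at h4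
    exact Al0_none h4
  have hcard : (U.filter (fun a => a.1.1 = j)).card ≤
      ((Si cls U i).filter (fun t => Al c t.1 t.2 = true)).card := by
    apply Finset.card_le_card_of_injOn (fun a : IJ cls => ((a.1.2.1 i, a.1.2.2 i) : T))
    · intro a ha
      rw [mem_coe] at ha
      have haj := (mem_filter.1 ha).2
      rw [mem_coe, mem_filter]
      constructor
      · unfold Si
        refine mem_image_of_mem _ (mem_filter.2 ⟨(mem_filter.1 ha).1, c, hc, ?_⟩)
        rw [haj, hj]
      · have h4 := al_of a i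
        rw [haj, hj] at h4
        exact Al0_of c hc _ _ h4
    · intro a ha b hb h
      rw [mem_coe] at ha hb
      apply Subtype.ext
      refine Prod.ext ((mem_filter.1 ha).2.trans (mem_filter.1 hb).2.symm) (Prod.ext ?_ ?_)
      · funext i'
        by_cases hi : i' = i
        · rw [hi]
          exact congrArg Prod.fst h
        · rw [(hz a ha i' hi).1, (hz b hb i' hi).1]
      · funext i'
        by_cases hi : i' = i
        · rw [hi]
          exact congrArg Prod.snd h
        · rw [(hz a ha i' hi).2, (hz b hb i' hi).2]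
  rw [Finset.sum_congr rfl hw, Finset.sum_const, nsmul_eq_mul]
  have h2 : ((U.filter (fun a => a.1.1 = j)).card : ℝ) ≤
      (((Si cls U i).filter (fun t => Al c t.1 t.2 = true)).card : ℝ) := by exact_mod_cast hcard
  linarith

/-- the largest unlinked set -/
theorem combj (cls : ι → J → Option (Fin 4)) (n : ι → ℕ)
    (h1 : ∀ i j, cls i j ≠ none → cls i j ≠ some 3 → ∀ i', i' ≠ i → cls i' j = none)
    (h3 : ∀ i (c : Fin 4), c ≠ 3 → (univ.filter (fun j => cls i j = some c)).card = n i)
    (U : Finset (IJ cls)) (hU : ∀ a ∈ U, ∀ a' ∈ U, LJ cls a a' = LJ cls a' a) :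
    ∑ a ∈ U, wJ cls a ≤ Fintype.card J := by
  classical
  set C3 : Finset (Fin 4) := univ.filter (fun c => c ≠ 3) with hC3
  set g : ι → Fin 4 → ℝ := fun i c =>
    (((Si cls U i).filter (fun t => Al c t.1 t.2 = true)).card : ℝ) / 2 with hg
  set A : J → Prop := fun j => ∀ i, cls i j = none ∨ cls i j = some 3 with hA
  have hg0 : ∀ i c, 0 ≤ g i c := fun i c => by positivity
  have hgs : ∀ i, ∑ c ∈ C3, g i c ≤ 3 := by
    intro i
    have h4 := Si_le h1 hU i
    have e : C3 = {0, 1, 2} := by rw [hC3]; decide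
    rw [e, Finset.sum_insert (by decide), Finset.sum_insert (by decide), Finset.sum_singleton]
    have h5 : (((Si cls U i).filter (fun t => Al 0 t.1 t.2 = true)).card : ℝ) +
      ((Si cls U i).filter (fun t => Al 1 t.1 t.2 = true)).card +
      ((Si cls U i).filter (fun t => Al 2 t.1 t.2 = true)).card ≤ 6 := by exact_mod_cast h4
    simp only [hg]
    linarith
  have hfib : ∀ j, ∑ a ∈ U.filter (fun a => a.1.1 = j), wJ cls a ≤
      (if A j then 1 else 0) + ∑ i, ∑ c ∈ C3, if cls i j = some c then g i c else 0 := by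
    intro j
    have hnn : 0 ≤ ∑ i, ∑ c ∈ C3, (if cls i j = some c then g i c else 0) :=
      Finset.sum_nonneg fun i _ => Finset.sum_nonneg fun c _ => by
        split_ifs
        exacts [hg0 i c, le_rfl]
    by_cases hj : A j
    · rw [if_pos hj]
      have := fib_tw hU hj
      linarith
    · rw [if_neg hj, zero_add]
      simp only [hA] at hj
      push Not at hj
      obtain ⟨i, hi1, hi2⟩ := hj
      obtain ⟨c, hc⟩ := Option.ne_none_iff_exists'.1 hi1
      have hc3 : c ≠ 3 := fun h => hi2 (by rw [hc, h])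
      refine (fib_one h1 hc3 hc).trans ?_
      have h5 : g i c ≤ ∑ c ∈ C3, (if cls i j = some c then g i c else 0) := by
        have h6 := Finset.single_le_sum (f := fun c => if cls i j = some c then g i c else 0)
          (s := C3) (fun c _ => by
            show 0 ≤ if cls i j = some c then g i c else 0
            split_ifs
            exacts [hg0 i c, le_rfl]) (a := c)
          (mem_filter.2 ⟨mem_univ _, hc3⟩)
        simp only [hc, if_true] at h6
        simpa only [hc] using h6
      refine h5.trans ?_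
      exact Finset.single_le_sum (f := fun i => ∑ c ∈ C3, if cls i j = some c then g i c else 0)
        (fun i _ => Finset.sum_nonneg fun c _ => by
          split_ifs
          exacts [hg0 i c, le_rfl]) (mem_univ i)
  have hsum : ∑ a ∈ U, wJ cls a ≤ ∑ j, ((if A j then (1 : ℝ) else 0) +
      ∑ i, ∑ c ∈ C3, if cls i j = some c then g i c else 0) := by
    rw [← Finset.sum_fiberwise (s := U) (g := fun a : IJ cls => a.1.1)]
    exact Finset.sum_le_sum fun j _ => hfib j
  refine hsum.trans ?_
  rw [Finset.sum_add_distrib]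
  have e1 : ∑ j, ∑ i, ∑ c ∈ C3, (if cls i j = some c then g i c else 0) =
      ∑ i, (n i : ℝ) * ∑ c ∈ C3, g i c := by
    rw [Finset.sum_comm]
    refine Finset.sum_congr rfl fun i _ => ?_
    rw [Finset.sum_comm, Finset.mul_sum]
    refine Finset.sum_congr rfl fun c hc => ?_
    rw [← Finset.sum_filter, Finset.sum_const, nsmul_eq_mul, h3 i c (mem_filter.1 hc).2]
  have e2 : ∑ i, (n i : ℝ) * ∑ c ∈ C3, g i c ≤ ∑ i, (n i : ℝ) * 3 :=
    Finset.sum_le_sum fun i _ => mul_le_mul_of_nonneg_left (hgs i) (Nat.cast_nonneg _)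
  have e3 : ∑ i, (n i : ℝ) * 3 = ∑ j, ∑ i, ∑ c ∈ C3, (if cls i j = some c then (1 : ℝ) else 0) := by
    rw [Finset.sum_comm]
    refine Finset.sum_congr rfl fun i _ => ?_
    rw [Finset.sum_comm]
    have e4 : ∀ c ∈ C3, ∑ j, (if cls i j = some c then (1 : ℝ) else 0) = n i := by
      intro c hc
      rw [← Finset.sum_filter, Finset.sum_const, nsmul_eq_mul, mul_one,
        h3 i c (mem_filter.1 hc).2]
    rw [Finset.sum_congr rfl e4, Finset.sum_const, nsmul_eq_mul]
    have e5 : C3.card = 3 := by rw [hC3]; decide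
    rw [e5]
    push_cast
    ring
  have e6 : ∀ j, (if A j then (1 : ℝ) else 0) +
      ∑ i, ∑ c ∈ C3, (if cls i j = some c then (1 : ℝ) else 0) ≤ 1 := by
    intro j
    by_cases hj : A j
    · rw [if_pos hj]
      have : ∑ i, ∑ c ∈ C3, (if cls i j = some c then (1 : ℝ) else 0) = 0 := by
        refine Finset.sum_eq_zero fun i _ => Finset.sum_eq_zero fun c hc => ?_
        have hc3 := (mem_filter.1 hc).2
        rw [if_neg]
        intro h
        rcases hj i with h4 | h4 <;> rw [h] at h4
        · exact absurd h4 (by simp)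
        · exact hc3 (by simpa using h4)
      rw [this, add_zero]
    · rw [if_neg hj, zero_add]
      simp only [hA] at hj
      push Not at hj
      obtain ⟨i, hi1, hi2⟩ := hj
      obtain ⟨c, hc⟩ := Option.ne_none_iff_exists'.1 hi1
      have hn := h1 i j hi1 hi2
      rw [Finset.sum_eq_single i]
      · rw [hc]
        have : ∀ c' ∈ C3, (if (some c : Option (Fin 4)) = some c' then (1 : ℝ) else 0) =
            if c' = c then 1 else 0 := by
          intro c' _
          simp [eq_comm]
        rw [Finset.sum_congr rfl this, Finset.sum_ite_eq']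
        split_ifs <;> norm_num
      · intro i' _ hi'
        rw [hn i' hi']
        simp
      · intro h
        exact absurd (mem_univ i) h
  calc ∑ j, (if A j then (1 : ℝ) else 0) +
        ∑ j, ∑ i, ∑ c ∈ C3, (if cls i j = some c then g i c else 0)
      ≤ ∑ j, (if A j then (1 : ℝ) else 0) +
        ∑ j, ∑ i, ∑ c ∈ C3, (if cls i j = some c then (1 : ℝ) else 0) := by
        rw [e1]
        linarith
    _ = ∑ j, ((if A j then (1 : ℝ) else 0) +
        ∑ i, ∑ c ∈ C3, (if cls i j = some c then (1 : ℝ) else 0)) := by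
        rw [Finset.sum_add_distrib]
    _ ≤ ∑ _j : J, (1 : ℝ) := Finset.sum_le_sum fun j _ => e6 j
    _ = Fintype.card J := by simp

end Pool.Agent.L7h19.RJ
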