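import Pool.Agent.W762.RK2.EXP4b
import Pool.Agent.L7h19.RJ.Defs

/-!
# Joint averages of `2 ^ rank`: the expansion into symbols

Adapted from `Pool.Agent.W762.RK2.EXP4b` (one curve).
-/

set_option autoImplicit false

namespace Pool.Agent.L7h19.RJ

open Finset Pool.Agent.W262.RK Pool.Agent.W108.RK Pool.Agent.W762.RK2

section local_identity

lemma Jr_ite (b : Bool) (k : ℤ) (p : ℕ) :
    Jr (if b = true then k else 1) p = if b = true then Jr k p else 1 := by
  split_ifs
  · rfl
  · exact Jr_one_left p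

/-- the sum over the characters for two bits -/
lemma loc_bits (neg v1 v2 h g A B : Bool) :
    ind (h = xor (v1 && neg) A ∧ g = xor (v2 && neg) B) =
      ∑ x : Bool × Bool, (1 / 4 : ℝ) * (if neg = true ∧ pr (v1, v2) x = true then -1 else 1) *
        ((if x.1 = true then sg A else 1) * (if x.2 = true then sg B else 1)) *
          ((if x.1 = true then sg h else 1) * (if x.2 = true then sg g else 1)) := by
  simp only [Fintype.sum_prod_type, Fintype.sum_bool]
  cases neg <;> cases v1 <;> cases v2 <;> cases A <;> cases B <;> cases h <;> cases g <;>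
    simp [ind, pr, sg] <;> norm_num

lemma kH_bit {k : Fin 3 → ℤ} {p : ℕ} (hp : p.Prime) (hk : ∀ i, ¬ (p : ℤ) ∣ k i)
    (v1 v2 : Bool) : Jr (kH k (v1, v2)) p = sg (xor (v1 && !v2 && sg0 p (k 0))
      (xor (!v1 && v2 && sg0 p (k 0 * k 1)) (v1 && v2 && sg0 p (k 1)))) := by
  have hmul : ∀ i j, ¬ (p : ℤ) ∣ k i * k j := by
    intro i j hd
    rcases (Nat.prime_iff_prime_int.1 hp).dvd_or_dvd hd with h' | h'
    · exact hk i h'
    · exact hk j h'
  have e2 : Jr (k 0 * k 1) p = sg (sg0 p (k 0 * k 1)) := Jr_dvd_ne hp (hmul 0 1)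
  have e3 : Jr (k 1) p = sg (sg0 p (k 1)) := Jr_dvd_ne hp (hk 1)
  have e4 : Jr (k 0) p = sg (sg0 p (k 0)) := Jr_dvd_ne hp (hk 0)
  have e5 : Jr 1 p = 1 := Jr_one_left p
  cases v1 <;> cases v2 <;> simp [kH, e2, e3, e4, e5]
  simp [sg]

lemma kG_bit {k : Fin 3 → ℤ} {p : ℕ} (hp : p.Prime) (hk : ∀ i, ¬ (p : ℤ) ∣ k i)
    (v1 v2 : Bool) : Jr (kG k (v1, v2)) p = sg (xor (v1 && !v2 && sg0 p (k 0 * k 2))
      (xor (!v1 && v2 && sg0 p (-k 0)) (v1 && v2 && sg0 p (-k 2)))) := by
  have hmul : ∀ i j, ¬ (p : ℤ) ∣ k i * k j := by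
    intro i j hd
    rcases (Nat.prime_iff_prime_int.1 hp).dvd_or_dvd hd with h' | h'
    · exact hk i h'
    · exact hk j h'
  have hneg : ∀ i, ¬ (p : ℤ) ∣ -k i := fun i h' => hk i ((dvd_neg).1 h')
  have e2 : Jr (k 0 * k 2) p = sg (sg0 p (k 0 * k 2)) := Jr_dvd_ne hp (hmul 0 2)
  have e3 : Jr (-k 0) p = sg (sg0 p (-k 0)) := Jr_dvd_ne hp (hneg 0)
  have e4 : Jr (-k 2) p = sg (sg0 p (-k 2)) := Jr_dvd_ne hp (hneg 2)
  have e5 : Jr 1 p = 1 := Jr_one_left p
  cases v1 <;> cases v2 <;> simp [kG, e2, e3, e4, e5]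
  simp [sg]

/-- the local identity for one curve -/
lemma loc_one (c : Option (Fin 4)) (k : Fin 3 → ℤ) {p : ℕ} (hp : p.Prime)
    (hk : ∀ i, ¬ (p : ℤ) ∣ k i) (neg : Bool) (v : Bool × Bool) (h g : Bool) :
    ind (LLo c k neg p v.1 v.2 h g) =
      ∑ x : Bool × Bool, if Al0 c v x = true then
        wo c * (if neg = true ∧ pr v x = true then -1 else 1) * Jr (ko c k v x) p *
          ((if x.1 = true then sg h else 1) * (if x.2 = true then sg g else 1)) else 0 := by
  have e4 : Jr (k 0) p = sg (sg0 p (k 0)) := Jr_dvd_ne hp (hk 0)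
  have e5 : Jr 1 p = 1 := Jr_one_left p
  obtain ⟨v1, v2⟩ := v
  cases c with
  | none =>
    simp only [Fintype.sum_prod_type, Fintype.sum_bool]
    cases v1 <;> cases v2 <;> simp [LLo, Al0, wo, pr, ko, ind, e5]
  | some c =>
    by_cases hc : c = 3
    · subst hc
      have h1 : LLo (some 3) k neg p v1 v2 h g = (h = xor (v1 && neg) (xor (v1 && !v2 && sg0 p (k 0))
          (xor (!v1 && v2 && sg0 p (k 0 * k 1)) (v1 && v2 && sg0 p (k 1)))) ∧
          g = xor (v2 && neg) (xor (v1 && !v2 && sg0 p (k 0 * k 2))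
          (xor (!v1 && v2 && sg0 p (-k 0)) (v1 && v2 && sg0 p (-k 2))))) := by
        show LL 3 k neg p v1 v2 h g = _
        unfold LL
        rw [if_neg (by decide), if_neg (by decide), if_neg (by decide)]
      show ind (LLo (some 3) k neg p v1 v2 h g) = _
      rw [h1, loc_bits]
      refine Finset.sum_congr rfl fun x _ => ?_
      simp only [Al0, wo, ko, if_true, Jr_mul_left, Jr_ite, kH_bit hp hk, kG_bit hp hk]
    · simp only [Fintype.sum_prod_type, Fintype.sum_bool]
      simp only [Al0, wo, ko, if_neg hc]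
      generalize ha : sg0 p (k 0) = a at *
      fin_cases c
      · cases v1 <;> cases v2 <;>
          simp [ec, pr, LLo, LL, ind, e4, e5, ha] <;>
          cases neg <;> cases h <;> cases g <;> cases a <;> simp [sg] <;> norm_num
      · cases v1 <;> cases v2 <;>
          simp [ec, pr, LLo, LL, ind, e4, e5, ha] <;>
          cases neg <;> cases h <;> cases g <;> cases a <;> simp [sg] <;> norm_num
      · cases v1 <;> cases v2 <;>
          simp [ec, pr, LLo, LL, ind, e4, e5, ha] <;>
          cases neg <;> cases h <;> cases g <;> cases a <;> simp [sg] <;> norm_num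
      · exact absurd rfl hc

end local_identity

section joint

variable {ι : Type} [Fintype ι] [DecidableEq ι]

lemma prod_sgn_pr (neg : Bool) (v x : ι → Bool × Bool) :
    ∏ i, (if neg = true ∧ pr (v i) (x i) = true then (-1 : ℝ) else 1) =
      if neg = true ∧ PR v x = true then -1 else 1 := by
  cases neg with
  | false => simp
  | true =>
    simp only [true_and]
    rw [← Finset.prod_filter, Finset.prod_const]
    unfold PR
    by_cases h : Odd (univ.filter (fun i => pr (v i) (x i) = true)).card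
    · rw [h.neg_one_pow]
      simp [h]
    · have h' := Nat.not_odd_iff_even.1 h
      rw [h'.neg_one_pow]
      simp [h]

/-- the local identity, joint form -/
lemma loc_joint (c : ι → Option (Fin 4)) (k : ι → Fin 3 → ℤ) {p : ℕ} (hp : p.Prime)
    (hk : ∀ i l, ¬ (p : ℤ) ∣ k i l) (v : ι → Bool × Bool) (h g : ι → Bool) :
    ((∏ i, ind (LLo (c i) (k i) true p (v i).1 (v i).2 (h i) (g i))) +
      ∏ i, ind (LLo (c i) (k i) false p (v i).1 (v i).2 (h i) (g i))) / 2 =
      ∑ x : ι → Bool × Bool, if AlJ c v x = true then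
        (∏ i, wo (c i)) * Jr (∏ i, ko (c i) (k i) (v i) (x i)) p *
          ∏ i, ((if (x i).1 = true then sg (h i) else 1) *
            (if (x i).2 = true then sg (g i) else 1)) else 0 := by
  have h1 : ∀ neg : Bool, ∏ i, ind (LLo (c i) (k i) neg p (v i).1 (v i).2 (h i) (g i)) =
      ∑ x : ι → Bool × Bool, if ∀ i, Al0 (c i) (v i) (x i) = true then
        (if neg = true ∧ PR v x = true then -1 else 1) *
        ((∏ i, wo (c i)) * Jr (∏ i, ko (c i) (k i) (v i) (x i)) p *
          ∏ i, ((if (x i).1 = true then sg (h i) else 1) *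
            (if (x i).2 = true then sg (g i) else 1))) else 0 := by
    intro neg
    rw [Finset.prod_congr rfl fun i _ => loc_one (c i) (k i) hp (hk i) neg (v i) (h i) (g i)]
    rw [Finset.prod_univ_sum, Fintype.piFinset_univ]
    refine Finset.sum_congr rfl fun x _ => ?_
    by_cases hx : ∀ i, Al0 (c i) (v i) (x i) = true
    · rw [if_pos hx, Finset.prod_congr rfl fun i _ => if_pos (hx i)]
      rw [Finset.prod_mul_distrib, Finset.prod_mul_distrib, Finset.prod_mul_distrib, prod_sgn_pr,
        Jr_prod_left]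
      ring
    · rw [if_neg hx]
      push Not at hx
      obtain ⟨i, hi⟩ := hx
      exact Finset.prod_eq_zero (Finset.mem_univ i) (if_neg hi)
  rw [h1 true, h1 false, ← Finset.sum_add_distrib, Finset.sum_div]
  refine Finset.sum_congr rfl fun x _ => ?_
  unfold AlJ
  by_cases hx : ∀ i, Al0 (c i) (v i) (x i) = true
  · by_cases hP : PR v x = true
    · simp [hx, hP]
    · have hP' : PR v x = false := by simpa using hP
      simp only [hx, hP', implies_true, if_true]
      simp
  · simp [hx]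

end joint

section big

variable {ι : Type} [Fintype ι] [DecidableEq ι]
variable {J : Type} [Fintype J] [DecidableEq J] {z y : ℕ}

/-- first bits -/
def b1j (i : ι) (x : Option (J × (ι → Bool × Bool))) : Bool := x.elim false fun a => (a.2 i).1

/-- second bits -/
def b2j (i : ι) (x : Option (J × (ι → Bool × Bool))) : Bool := x.elim false fun a => (a.2 i).2

/-- first divisors -/
def D1j (i : ι) (ξ : Pr z y → Option (J × (ι → Bool × Bool))) : ℕ := nb fun p => b1j i (ξ p)

/-- second divisors -/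
def D2j (i : ι) (ξ : Pr z y → Option (J × (ι → Bool × Bool))) : ℕ := nb fun p => b2j i (ξ p)

/-- the tuple -/
def SSj (ξ : Pr z y → Option (J × (ι → Bool × Bool))) : J → ℕ := Dl fun p => (ξ p).map Prod.fst

omit [Fintype ι] [DecidableEq ι] in
lemma D1j_dvd (i : ι) (ξ : Pr z y → Option (J × (ι → Bool × Bool))) : D1j i ξ ∣ ∏ j, SSj ξ j := by
  unfold SSj D1j
  rw [prod_Dl]
  refine nb_dvd fun p hp => ?_
  cases h : ξ p with
  | none => rw [h] at hp; exact absurd hp (by simp [b1j])
  | some a => rfl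

omit [Fintype ι] [DecidableEq ι] in
lemma D2j_dvd (i : ι) (ξ : Pr z y → Option (J × (ι → Bool × Bool))) : D2j i ξ ∣ ∏ j, SSj ξ j := by
  unfold SSj D2j
  rw [prod_Dl]
  refine nb_dvd fun p hp => ?_
  cases h : ξ p with
  | none => rw [h] at hp; exact absurd hp (by simp [b2j])
  | some a => rfl

omit [Fintype ι] [DecidableEq ι] in
lemma prod_SSj_ne (ξ : Pr z y → Option (J × (ι → Bool × Bool))) : ∏ j, SSj ξ j ≠ 0 := by
  unfold SSj
  rw [prod_Dl]
  exact nb_ne_zero _

/-- the set of the pairs of divisors -/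
def DD (ι : Type) [Fintype ι] [DecidableEq ι] (m : ℕ) : Finset (ι → ℕ × ℕ) :=
  Fintype.piFinset fun _ => m.divisors ×ˢ m.divisors

lemma sum_bigj (F : (J → ℕ) → (ι → ℕ × ℕ) → ℝ) :
    ∑ s ∈ Tup J z y, ∑ d ∈ DD ι (∏ j, s j), F s d =
      ∑ ξ : Pr z y → Option (J × (ι → Bool × Bool)), F (SSj ξ) (fun i => (D1j i ξ, D2j i ξ)) := by
  rw [Finset.sum_sigma']
  symm
  refine Finset.sum_bij (fun ξ _ => ⟨SSj ξ, fun i => (D1j i ξ, D2j i ξ)⟩) ?_ ?_ ?_
    (fun _ _ => rfl)
  · intro ξ _
    rw [Finset.mem_sigma]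
    refine ⟨Dl_mem _, ?_⟩
    unfold DD
    rw [Fintype.mem_piFinset]
    intro i
    rw [Finset.mem_product]
    exact ⟨Nat.mem_divisors.2 ⟨D1j_dvd i ξ, prod_SSj_ne ξ⟩,
      Nat.mem_divisors.2 ⟨D2j_dvd i ξ, prod_SSj_ne ξ⟩⟩
  · intro ξ _ ξ' _ h
    have h1 : SSj ξ = SSj ξ' := congrArg Sigma.fst h
    have h2 : (fun i => (D1j i ξ, D2j i ξ)) = (fun i => (D1j i ξ', D2j i ξ')) :=
      congrArg Sigma.snd h
    have h3 : ∀ i, D1j i ξ = D1j i ξ' := fun i => congrArg Prod.fst (congrFun h2 i)
    have h4 : ∀ i, D2j i ξ = D2j i ξ' := fun i => congrArg Prod.snd (congrFun h2 i)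
    funext p
    have e1 : (ξ p).map Prod.fst = (ξ' p).map Prod.fst := congrFun (Dl_inj h1) p
    have e2 : ∀ i, b1j i (ξ p) = b1j i (ξ' p) := fun i => congrFun (nb_inj (h3 i)) p
    have e3 : ∀ i, b2j i (ξ p) = b2j i (ξ' p) := fun i => congrFun (nb_inj (h4 i)) p
    cases hx : ξ p with
    | none =>
      cases hx' : ξ' p with
      | none => rfl
      | some a' => rw [hx, hx'] at e1; exact absurd e1 (by simp)
    | some a =>
      cases hx' : ξ' p with
      | none => rw [hx, hx'] at e1; exact absurd e1 (by simp)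
      | some a' =>
        rw [hx, hx'] at e1
        obtain ⟨j, v⟩ := a
        obtain ⟨j', v'⟩ := a'
        have e4 : j = j' := by simpa using e1
        have e5 : v = v' := by
          funext i
          have e6 := e2 i
          have e7 := e3 i
          rw [hx, hx'] at e6 e7
          exact Prod.ext e6 e7
        rw [e4, e5]
  · rintro ⟨s, d⟩ hs
    rw [Finset.mem_sigma] at hs
    obtain ⟨hs, hd⟩ := hs
    unfold DD at hd
    rw [Fintype.mem_piFinset] at hd
    have hd1' : ∀ i, (d i).1 ∣ ∏ j, s j := fun i =>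
      (Nat.mem_divisors.1 (Finset.mem_product.1 (hd i)).1).1
    have hd2' : ∀ i, (d i).2 ∣ ∏ j, s j := fun i =>
      (Nat.mem_divisors.1 (Finset.mem_product.1 (hd i)).2).1
    simp only at hs
    have hPP : ∏ j, s j ∣ PP z y := by
      rw [← Dl_lab hs, prod_Dl]
      exact nb_dvd_PP _
    have hn : ∀ p : Pr z y, lab s p = none → ¬ (p : ℕ) ∣ ∏ j, s j := by
      intro p hp h
      rw [← Dl_lab hs, prod_Dl, dvd_nb, hp] at h
      exact absurd h (by simp)
    set ξ0 : Pr z y → Option (J × (ι → Bool × Bool)) := fun p => (lab s p).map fun j =>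
      (j, fun i => (decide ((p : ℕ) ∣ (d i).1), decide ((p : ℕ) ∣ (d i).2))) with hξ0
    refine ⟨ξ0, Finset.mem_univ _, ?_⟩
    have e1 : SSj ξ0 = s := by
      unfold SSj
      conv_rhs => rw [← Dl_lab hs]
      congr 1
      funext p
      show (ξ0 p).map Prod.fst = _
      simp only [hξ0]
      cases lab s p <;> rfl
    have e2 : ∀ i, D1j i ξ0 = (d i).1 := by
      intro i
      unfold D1j
      rw [← nb_eq ((hd1' i).trans hPP)]
      congr 1
      funext p
      show b1j i (ξ0 p) = _
      simp only [hξ0]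
      cases hp : lab s p with
      | none =>
        have : ¬ (p : ℕ) ∣ (d i).1 := fun h => hn p hp (h.trans (hd1' i))
        simp [b1j, this]
      | some j => rfl
    have e3 : ∀ i, D2j i ξ0 = (d i).2 := by
      intro i
      unfold D2j
      rw [← nb_eq ((hd2' i).trans hPP)]
      congr 1
      funext p
      show b2j i (ξ0 p) = _
      simp only [hξ0]
      cases hp : lab s p with
      | none =>
        have : ¬ (p : ℕ) ∣ (d i).2 := fun h => hn p hp (h.trans (hd2' i))
        simp [b2j, this]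
      | some j => rfl
    have e4 : (fun i => (D1j i ξ0, D2j i ξ0)) = d := by
      funext i
      rw [e2, e3]
    rw [e1, e4]

end big

section average

variable {ι : Type} [Fintype ι] [DecidableEq ι]
variable {J : Type} [Fintype J] [DecidableEq J] {z y : ℕ}

/-- the local indicator -/
noncomputable def Ilj (cls : ι → J → Option (Fin 4)) (k : ι → J → Fin 3 → ℤ) (s : J → ℕ)
    (d : ι → ℕ × ℕ) (neg : Bool) (p : ℕ) : ℝ :=
  ∏ i, ind (∀ j, p ∣ s j → LLo (cls i j) (k i j) neg p (dv p (d i).1) (dv p (d i).2)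
    (sgn p (d i).1) (sgn p (d i).2))

lemma LLo_neg {c : Option (Fin 4)} (hc : c ≠ some 3) (k : Fin 3 → ℤ) (p : ℕ) (v w h g : Bool) :
    LLo c k true p v w h g = LLo c k false p v w h g := by
  cases c with
  | none => rfl
  | some c => exact LL_neg (fun h => hc (by rw [h])) k p v w h g

lemma NBj_eq (cls : ι → J → Option (Fin 4)) (k : ι → J → Fin 3 → ℤ) {s : J → ℕ}
    (hs : s ∈ Tup J z y) :
    NBj cls k s = ∑ d ∈ DD ι (∏ j, s j),
      ∏ p ∈ (∏ j, s j).primeFactors, (Ilj cls k s d true p + Ilj cls k s d false p) / 2 := by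
  classical
  have hne : ∏ j, s j ≠ 0 := Finset.prod_ne_zero_iff.2 fun j _ => (sqf_of_mem hs j).ne_zero
  have h1 : ∀ E : Finset ℕ, ∏ i, (NL (∏ j, s j) (LLso (cls i) (k i) s E) : ℝ) =
      ∑ d ∈ DD ι (∏ j, s j),
        ∏ p ∈ (∏ j, s j).primeFactors, Ilj cls k s d (decide (p ∈ E)) p := by
    intro E
    have h2 : ∀ i, (NL (∏ j, s j) (LLso (cls i) (k i) s E) : ℝ) =
        ∑ d ∈ (∏ j, s j).divisors ×ˢ (∏ j, s j).divisors,
          ∏ p ∈ (∏ j, s j).primeFactors, ind (∀ j, p ∣ s j → LLo (cls i j) (k i j)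
            (decide (p ∈ E)) p (dv p d.1) (dv p d.2) (sgn p d.1) (sgn p d.2)) := by
      intro i
      unfold NL
      rw [Finset.card_filter]
      push_cast
      refine Finset.sum_congr rfl fun d _ => ?_
      rw [prod_ind]
      unfold ind LLso
      congr
    rw [Finset.prod_congr rfl fun i _ => h2 i, Finset.prod_univ_sum]
    unfold DD
    refine Finset.sum_congr rfl fun d _ => ?_
    unfold Ilj
    rw [Finset.prod_comm]
  unfold NBj
  rw [Finset.sum_congr rfl fun E _ => h1 E, Finset.sum_comm, Finset.mul_sum]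
  refine Finset.sum_congr rfl fun d _ => ?_
  refine avg (P3 (tw cls) s) (∏ j, s j).primeFactors ?_ (Ilj cls k s d) ?_
  · unfold P3
    refine Nat.primeFactors_mono ?_ hne
    exact Finset.prod_dvd_prod_of_subset _ _ _ (Finset.filter_subset _ _)
  · intro p hp hpA
    unfold Ilj
    refine Finset.prod_congr rfl fun i _ => ?_
    congr 1
    refine propext (forall_congr' fun j => ?_)
    refine forall_congr' fun hj => ?_
    rw [LLo_neg]
    intro hc
    apply hpA
    unfold P3
    refine Nat.mem_primeFactors.2 ⟨Nat.prime_of_mem_primeFactors hp, ?_, ?_⟩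
    · refine hj.trans (Finset.dvd_prod_of_mem _ (Finset.mem_filter.2 ⟨Finset.mem_univ _, ?_⟩))
      unfold tw
      rw [if_pos ⟨i, hc⟩]
    · exact Finset.prod_ne_zero_iff.2 fun j _ => (sqf_of_mem hs j).ne_zero

end average

section final

variable {ι : Type} [Fintype ι] [DecidableEq ι]
variable {J : Type} [Fintype J] [DecidableEq J] {z y : ℕ}

/-- the local term -/
noncomputable def Tmj (cls : ι → J → Option (Fin 4)) (k : ι → J → Fin 3 → ℤ) (c : ℕ)
    (ξ : Pr z y → Option (J × (ι → Bool × Bool))) (p : Pr z y) : ℝ :=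
  (ξ p).elim 1 fun a => 1 / ((p : ℝ) - c) * (((∏ i, ind (LLo (cls i a.1) (k i a.1) true p
    (a.2 i).1 (a.2 i).2 (sgn p (D1j i ξ)) (sgn p (D2j i ξ)))) + ∏ i, ind (LLo (cls i a.1)
    (k i a.1) false p (a.2 i).1 (a.2 i).2 (sgn p (D1j i ξ)) (sgn p (D2j i ξ)))) / 2)

lemma lhs_eqj (cls : ι → J → Option (Fin 4)) (k : ι → J → Fin 3 → ℤ) (c : ℕ) :
    ∑ s ∈ Tup J z y, NBj cls k s * ∏ j, gw 1 c (s j) =
      ∑ ξ : Pr z y → Option (J × (ι → Bool × Bool)), ∏ p, Tmj cls k c ξ p := by
  have h1 : ∀ s ∈ Tup J z y, NBj cls k s * ∏ j, gw 1 c (s j) =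
      ∑ d ∈ DD ι (∏ j, s j),
        (∏ p ∈ (∏ j, s j).primeFactors, (Ilj cls k s d true p + Ilj cls k s d false p) / 2) *
          ∏ j, gw 1 c (s j) := by
    intro s hs
    rw [NBj_eq cls k hs, Finset.sum_mul]
  rw [Finset.sum_congr rfl h1, sum_bigj fun s d =>
    (∏ p ∈ (∏ j, s j).primeFactors, (Ilj cls k s d true p + Ilj cls k s d false p) / 2) *
          ∏ j, gw 1 c (s j)]
  refine Finset.sum_congr rfl fun ξ _ => ?_
  have h2 : ∏ j, gw 1 c (SSj ξ j) = ∏ p : Pr z y, ((ξ p).map Prod.fst).elim 1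
      fun _ => 1 / ((p : ℝ) - c) := prod_gw (fun _ => 1) c _
  have h3 : ∏ j, SSj ξ j = nb fun p => ((ξ p).map Prod.fst).isSome := prod_Dl _
  rw [h2, h3, prod_pf _ fun p => (Ilj cls k (SSj ξ) (fun i => (D1j i ξ, D2j i ξ)) true p +
    Ilj cls k (SSj ξ) (fun i => (D1j i ξ, D2j i ξ)) false p) / 2, ← Finset.prod_mul_distrib]
  refine Finset.prod_congr rfl fun p _ => ?_
  unfold Tmj
  cases hx : ξ p with
  | none => simp
  | some a =>
    have h4 : ∀ neg, Ilj cls k (SSj ξ) (fun i => (D1j i ξ, D2j i ξ)) neg p =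
        ∏ i, ind (LLo (cls i a.1) (k i a.1) neg p (a.2 i).1 (a.2 i).2 (sgn p (D1j i ξ))
          (sgn p (D2j i ξ))) := by
      intro neg
      unfold Ilj
      refine Finset.prod_congr rfl fun i _ => ?_
      have e1 : dv p (D1j i ξ : ℤ) = (a.2 i).1 := by
        have : b1j i (ξ p) = (a.2 i).1 := by rw [hx]; rfl
        rw [← this]
        unfold dv
        rw [Bool.eq_iff_iff, decide_eq_true_iff, Int.natCast_dvd_natCast]
        exact dvd_nb _ p
      have e2 : dv p (D2j i ξ : ℤ) = (a.2 i).2 := by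
        have : b2j i (ξ p) = (a.2 i).2 := by rw [hx]; rfl
        rw [← this]
        unfold dv
        rw [Bool.eq_iff_iff, decide_eq_true_iff, Int.natCast_dvd_natCast]
        exact dvd_nb _ p
      have e3 : ∀ j, (p : ℕ) ∣ SSj ξ j ↔ j = a.1 := by
        intro j
        unfold SSj Dl
        rw [dvd_nb, decide_eq_true_iff]
        show (ξ p).map Prod.fst = some j ↔ j = a.1
        rw [hx]
        simp [eq_comm]
      congr 1
      simp only [e1, e2, e3, forall_eq]
    simp only [h4]
    simp only [Option.map_some, Option.isSome_some, if_true, Option.elim]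
    ring

lemma sum_IJ (cls : ι → J → Option (Fin 4))
    (F : J × (ι → Bool × Bool) × (ι → Bool × Bool) → ℝ) :
    ∑ i : IJ cls, F i.1 =
      ∑ r, if AlJ (fun i => cls i r.1) r.2.1 r.2.2 = true then F r else 0 := by
  rw [← Finset.sum_filter]
  exact (Finset.sum_subtype (univ.filter fun r : J × (ι → Bool × Bool) × (ι → Bool × Bool) =>
    AlJ (fun i => cls i r.1) r.2.1 r.2.2 = true) (fun x => by simp) F).symm

/-- forget the character -/
def fgj {cls : ι → J → Option (Fin 4)} (x : Option (IJ cls)) : Option (J × (ι → Bool × Bool)) :=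
  x.map fun i => (i.1.1, i.1.2.1)

/-- the local factor -/
noncomputable def Gj (cls : ι → J → Option (Fin 4)) (k : ι → J → Fin 3 → ℤ) (c : ℕ)
    (ξ : Pr z y → Option (J × (ι → Bool × Bool))) (p : Pr z y) (x : Option (IJ cls)) : ℝ :=
  x.elim 1 fun a => 1 / ((p : ℝ) - c) * (wJ cls a * Jr (κJ cls k a) p *
    ∏ i, ((if (a.1.2.2 i).1 = true then sg (sgn p (D1j i ξ)) else 1) *
      (if (a.1.2.2 i).2 = true then sg (sgn p (D2j i ξ)) else 1)))

lemma sum_Gj (cls : ι → J → Option (Fin 4)) (k : ι → J → Fin 3 → ℤ) (c : ℕ)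
    (ξ : Pr z y → Option (J × (ι → Bool × Bool))) (p : Pr z y)
    (hk : ∀ i j l, ¬ ((p : ℕ) : ℤ) ∣ k i j l) :
    ∑ x ∈ univ.filter (fun x : Option (IJ cls) => fgj x = ξ p), Gj cls k c ξ p x =
      Tmj cls k c ξ p := by
  rw [Finset.sum_filter, Fintype.sum_option]
  unfold Tmj
  cases hx : ξ p with
  | none => simp [fgj, Gj]
  | some a =>
    obtain ⟨j, v⟩ := a
    have h0 : (if fgj (none : Option (IJ cls)) = some (j, v) then Gj cls k c ξ p none else 0) =
        0 := by
      rw [if_neg]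
      simp [fgj]
    rw [h0, zero_add]
    set F : J × (ι → Bool × Bool) × (ι → Bool × Bool) → ℝ := fun r =>
          if r.1 = j ∧ r.2.1 = v then 1 / ((p : ℝ) - c) * ((∏ i, wo (cls i r.1)) *
            Jr (∏ i, ko (cls i r.1) (k i r.1) (r.2.1 i) (r.2.2 i)) p *
            ∏ i, ((if (r.2.2 i).1 = true then sg (sgn p (D1j i ξ)) else 1) *
            (if (r.2.2 i).2 = true then sg (sgn p (D2j i ξ)) else 1))) else 0 with hF
    have h1 : ∀ a : IJ cls, (if fgj (some a) = some (j, v) then Gj cls k c ξ p (some a) else 0) =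
        F a.1 := by
      intro a
      refine if_congr ?_ rfl rfl
      simp only [fgj, Option.map_some, Option.some.injEq, Prod.mk.injEq]
    refine (Finset.sum_congr rfl fun i _ => h1 i).trans ((sum_IJ cls F).trans ?_)
    rw [Fintype.sum_prod_type, Finset.sum_eq_single j]
    · rw [Fintype.sum_prod_type, Finset.sum_eq_single v]
      · show _ = 1 / ((p : ℝ) - c) * _
        rw [loc_joint (fun i => cls i j) (fun i => k i j) (Pr_prime p) (fun i l => hk i j l) v,
          Finset.mul_sum]
        refine Finset.sum_congr rfl fun x _ => ?_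
        simp only [hF, and_self, if_true, mul_ite, mul_zero]
      · intro v' _ hv'
        refine Finset.sum_eq_zero fun x _ => ?_
        simp [hF, hv']
      · intro h
        exact absurd (Finset.mem_univ _) h
    · intro j' _ hj'
      refine Finset.sum_eq_zero fun x _ => ?_
      simp [hF, hj']
    · intro h
      exact absurd (Finset.mem_univ _) h

lemma PR_self {cls : ι → J → Option (Fin 4)} (a : IJ cls) : PR a.1.2.1 a.1.2.2 = false := by
  have h := a.2
  unfold AlJ at h
  exact (of_decide_eq_true h).2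

lemma Jr_sq {z y : ℕ} {q p : Pr z y} (hqp : q ≠ p) : Jr (q : ℕ) p * Jr (q : ℕ) p = 1 := by
  have hnd : ¬ ((p : ℕ) : ℤ) ∣ ((q : ℕ) : ℤ) := by
    rw [Int.natCast_dvd_natCast]
    intro hd
    exact hqp (Subtype.ext ((Nat.prime_dvd_prime_iff_eq (Pr_prime p) (Pr_prime q)).1 hd).symm)
  rw [← sg_sg0 (Pr_prime p) hnd]
  unfold sg
  split_ifs <;> norm_num

lemma pow_card_odd {x : ℝ} (hx : x * x = 1) (n : ℕ) : x ^ n = if Odd n then x else 1 := by
  have h2 : x ^ 2 = 1 := by rw [pow_two]; exact hx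
  by_cases h : Odd n
  · obtain ⟨m, rfl⟩ := h
    rw [pow_succ, pow_mul, h2, one_pow, one_mul, if_pos ⟨m, rfl⟩]
  · obtain ⟨m, rfl⟩ := Nat.not_odd_iff_even.1 h
    rw [← two_mul, pow_mul, h2, one_pow, if_neg]
    rw [two_mul]; exact h

lemma bits_eqj (q p : Pr z y) (v x : ι → Bool × Bool) (h : q = p → PR v x = false) :
    (if PR v x = true then Jr (q : ℕ) p else 1) =
      ∏ i, ((if (x i).1 = true then (if q ≠ p ∧ (v i).1 = true then Jr (q : ℕ) p else 1) else 1) *
      (if (x i).2 = true then (if q ≠ p ∧ (v i).2 = true then Jr (q : ℕ) p else 1) else 1)) := by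
  by_cases hqp : q = p
  · rw [h hqp]
    simp [hqp]
  · have hJ := Jr_sq hqp
    have h1 : ∀ i, ((if (x i).1 = true then (if q ≠ p ∧ (v i).1 = true then Jr (q : ℕ) p else 1)
        else 1) * (if (x i).2 = true then (if q ≠ p ∧ (v i).2 = true then Jr (q : ℕ) p else 1)
        else 1)) = if pr (v i) (x i) = true then Jr (q : ℕ) p else 1 := by
      intro i
      unfold pr
      generalize (x i).1 = a
      generalize (x i).2 = b
      generalize (v i).1 = a'
      generalize (v i).2 = b'
      cases a <;> cases b <;> cases a' <;> cases b' <;> simp [hqp, hJ]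
    rw [Finset.prod_congr rfl fun i _ => h1 i, ← Finset.prod_filter, Finset.prod_const,
      pow_card_odd hJ]
    unfold PR
    simp only [decide_eq_true_eq]

lemma PR_zero (x : ι → Bool × Bool) : PR (fun _ => (false, false)) x = false := by
  unfold PR pr
  simp

lemma rhs_termj (cls : ι → J → Option (Fin 4)) (k : ι → J → Fin 3 → ℤ) (c : ℕ)
    (ξ : Pr z y → Option (J × (ι → Bool × Bool))) (l : Pr z y → Option (IJ cls))
    (h : ∀ p, fgj (l p) = ξ p) :
    (∏ a, gw (wJ cls a) c (Dl l a)) * Pool.Agent.W262.RK.Sym (LJ cls) (κJ cls k) (Dl l) =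
      ∏ p, Gj cls k c ξ p (l p) := by
  rw [prod_gw, Sym_Dl, ← Finset.prod_mul_distrib, ← Finset.prod_mul_distrib]
  refine Finset.prod_congr rfl fun p _ => ?_
  cases hl : l p with
  | none =>
    have h0 : ∀ q, lk (LJ cls) (l q) none = false := by
      intro q
      cases l q <;> rfl
    simp [h0, Gj]
  | some a =>
    have hAl := PR_self a
    have h1 : ∀ q, lk (LJ cls) (l q) (some a) =
        PR (fun i => (b1j i (ξ q), b2j i (ξ q))) a.1.2.2 := by
      intro q
      rw [← h q]
      cases hq : l q with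
      | none =>
        have : (fun i : ι => (b1j i (fgj (none : Option (IJ cls))),
            b2j i (fgj (none : Option (IJ cls))))) = fun _ => (false, false) := by
          funext i
          rfl
        rw [this, PR_zero]
        rfl
      | some a' => rfl
    have h2 : ∏ q : Pr z y, (if lk (LJ cls) (l q) (some a) = true then Jr (q : ℕ) p else 1) =
        ∏ i, ((if (a.1.2.2 i).1 = true then sg (sgn p (D1j i ξ)) else 1) *
      (if (a.1.2.2 i).2 = true then sg (sgn p (D2j i ξ)) else 1)) := by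
      have h3 : ∀ a : Bool, ∀ b : Pr z y → Bool, (if a = true then sg (sgn p (nb b : ℤ)) else 1) =
          ∏ q : Pr z y, if a = true then (if q ≠ p ∧ b q = true then Jr (q : ℕ) p else 1)
            else 1 := by
        intro a b
        cases a
        · simp
        · simp only [if_true]
          exact sgn_nb b p
      have h4 : ∀ i, ((if (a.1.2.2 i).1 = true then sg (sgn p (D1j i ξ)) else 1) *
          (if (a.1.2.2 i).2 = true then sg (sgn p (D2j i ξ)) else 1)) =
          ∏ q : Pr z y, ((if (a.1.2.2 i).1 = true then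
            (if q ≠ p ∧ b1j i (ξ q) = true then Jr (q : ℕ) p else 1) else 1) *
          (if (a.1.2.2 i).2 = true then
            (if q ≠ p ∧ b2j i (ξ q) = true then Jr (q : ℕ) p else 1) else 1)) := by
        intro i
        unfold D1j D2j
        rw [h3, h3, ← Finset.prod_mul_distrib]
      rw [Finset.prod_congr rfl fun i _ => h4 i, Finset.prod_comm]
      refine Finset.prod_congr rfl fun q _ => ?_
      rw [h1]
      refine bits_eqj q p _ _ fun hqp => ?_
      rw [hqp, ← h p, hl]
      exact hAl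
    rw [h2]
    unfold Gj
    simp only [Option.elim]
    ring

end final

/-- the expansion of the average over the signs into symbols -/
theorem expj {ι : Type} [Fintype ι] [DecidableEq ι] {J : Type} [Fintype J] [DecidableEq J]
    (cls : ι → J → Option (Fin 4)) (κ : ι → J → Fin 3 → ℤ) (c z y : ℕ)
    (hκ : ∀ i j l, κ i j l ≠ 0) (hκz : ∀ i j l, (κ i j l).natAbs ≤ z) :
    ∑ s ∈ Tup J z y, NBj cls κ s * ∏ j, gw 1 c (s j) =
      ∑ d ∈ Tup (IJ cls) z y, (∏ a, gw (wJ cls a) c (d a)) *
        Pool.Agent.W262.RK.Sym (LJ cls) (κJ cls κ) d := by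
  classical
  rw [lhs_eqj, sum_Tup, ← Finset.sum_fiberwise univ
    (fun (l : Pr z y → Option (IJ cls)) => fun p => fgj (l p))]
  refine Finset.sum_congr rfl fun ξ _ => ?_
  have h1 : (univ.filter fun l : Pr z y → Option (IJ cls) => (fun p => fgj (l p)) = ξ) =
      Fintype.piFinset (fun p => univ.filter (fun x : Option (IJ cls) => fgj x = ξ p)) := by
    ext l
    simp only [Finset.mem_filter, Finset.mem_univ, true_and, Fintype.mem_piFinset, funext_iff]
  have hk : ∀ p : Pr z y, ∀ i j l, ¬ ((p : ℕ) : ℤ) ∣ κ i j l := by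
    intro p i j l hd
    have hz : z < p := by
      have := p.2
      unfold PS at this
      exact (Finset.mem_Ioc.1 (Finset.mem_filter.1 this).1).1
    have h3 := Nat.le_of_dvd (Int.natAbs_pos.mpr (hκ i j l)) (Int.natCast_dvd.1 hd)
    have h4 := hκz i j l
    omega
  rw [h1, Finset.prod_congr rfl fun p _ => (sum_Gj cls κ c ξ p (hk p)).symm, Finset.prod_univ_sum]
  refine Finset.sum_congr rfl fun l hl => ?_
  rw [Fintype.mem_piFinset] at hl
  exact (rhs_termj cls κ c ξ l fun p => (Finset.mem_filter.1 (hl p)).2).symm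

end Pool.Agent.L7h19.RJ
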