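import Mathlib
import Pool.Agent.L7h19.RJ.Exp
import Pool.Agent.L7h19.RJ.Comb
import Pool.Agent.L7h19.RJ.Sub
import Pool.Agent.W262.RK.MA

/-!
# Joint moments of `2 ^ rank`: the average of the majorant
-/

set_option autoImplicit false

namespace Pool.Agent.L7h19.RJ

open Finset Pool.Agent.W262.RK

variable {ι : Type} [Fintype ι] [DecidableEq ι] {J : Type} [Fintype J] [DecidableEq J]

lemma wo_pos (c : Option (Fin 4)) : 0 < wo c ∧ wo c ≤ 1 := by
  unfold wo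
  cases c with
  | none => norm_num
  | some c =>
    show 0 < (if c = 3 then (1 / 4 : ℝ) else 1 / 2) ∧ (if c = 3 then (1 / 4 : ℝ) else 1 / 2) ≤ 1
    split_ifs <;> norm_num

lemma wo_half {c : Option (Fin 4)} (hc : c ≠ none) : wo c ≤ 1 / 2 := by
  unfold wo
  cases c with
  | none => exact absurd rfl hc
  | some c =>
    show (if c = 3 then (1 / 4 : ℝ) else 1 / 2) ≤ 1 / 2
    split_ifs <;> norm_num

lemma wJ_pos (cls : ι → J → Option (Fin 4)) (h2 : ∀ j, ∃ i, cls i j ≠ none) (a : IJ cls) :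
    0 < wJ cls a ∧ wJ cls a ≤ 1 / 2 := by
  unfold wJ
  refine ⟨prod_pos fun i _ => (wo_pos _).1, ?_⟩
  obtain ⟨i, hi⟩ := h2 a.1.1
  rw [← mul_prod_erase _ _ (mem_univ i)]
  have h3 : ∏ x ∈ univ.erase i, wo (cls x a.1.1) ≤ 1 :=
    prod_le_one (fun x _ => (wo_pos _).1.le) (fun x _ => (wo_pos _).2)
  have h4 : 0 ≤ ∏ x ∈ univ.erase i, wo (cls x a.1.1) := prod_nonneg fun x _ => (wo_pos _).1.le
  have h5 := wo_half hi
  have h6 := (wo_pos (cls i a.1.1)).1
  nlinarith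

lemma kH_ne {k : Fin 3 → ℤ} (h : ∀ l, k l ≠ 0) (v : Bool × Bool) : kH k v ≠ 0 := by
  unfold kH
  split_ifs
  · exact h _
  · exact mul_ne_zero (h _) (h _)
  · exact h _
  · exact one_ne_zero

lemma kG_ne {k : Fin 3 → ℤ} (h : ∀ l, k l ≠ 0) (v : Bool × Bool) : kG k v ≠ 0 := by
  unfold kG
  split_ifs
  · exact mul_ne_zero (h _) (h _)
  · exact neg_ne_zero.2 (h _)
  · exact neg_ne_zero.2 (h _)
  · exact one_ne_zero

lemma ko_ne (c : Option (Fin 4)) {k : Fin 3 → ℤ} (h : ∀ l, k l ≠ 0) (v x : Bool × Bool) :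
    ko c k v x ≠ 0 := by
  unfold ko
  cases c with
  | none => exact one_ne_zero
  | some c =>
    show (if c = 3 then (if x.1 = true then kH k v else 1) * (if x.2 = true then kG k v else 1)
      else if v = (false, false) ∨ x = (false, false) then 1 else k 0) ≠ 0
    split_ifs
    · exact mul_ne_zero (kH_ne h v) (kG_ne h v)
    · exact mul_ne_zero (kH_ne h v) one_ne_zero
    · exact mul_ne_zero one_ne_zero (kG_ne h v)
    · exact mul_ne_zero one_ne_zero one_ne_zero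
    · exact one_ne_zero
    · exact h 0

lemma LJ_self (cls : ι → J → Option (Fin 4)) (a : IJ cls) : LJ cls a a = false := by
  have h := a.2
  unfold AlJ at h
  rw [decide_eq_true_eq] at h
  exact h.2

/-- the average of `NBj` is bounded by `(log y) ^ |J|` -/
theorem majj (cls : ι → J → Option (Fin 4)) (n : ι → ℕ)
    (h1 : ∀ i j, cls i j ≠ none → cls i j ≠ some 3 → ∀ i', i' ≠ i → cls i' j = none)
    (h2 : ∀ j, ∃ i, cls i j ≠ none)
    (h3 : ∀ i (c : Fin 4), c ≠ 3 → (univ.filter (fun j => cls i j = some c)).card = n i)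
    (κ : ι → J → Fin 3 → ℤ) (hκ : ∀ i j l, κ i j l ≠ 0) (c : ℕ) :
    ∃ z0 : ℕ, ∀ z, z0 ≤ z → (∀ i j l, (κ i j l).natAbs ≤ z) → ∃ C : ℝ, ∀ y, z < y →
      ∑ s ∈ Tup J z y, NBj cls κ s * ∏ j, gw 1 c (s j) ≤
        C * (Real.log y) ^ (Fintype.card J) := by
  obtain ⟨z0, hz0⟩ := at_thm (IJ cls) (wJ cls) (LJ cls) (κJ cls κ) c ((Fintype.card J : ℕ) : ℝ)
    (wJ_pos cls h2) (LJ_self cls)
    (fun a => prod_ne_zero_iff.2 fun i _ => ko_ne _ (hκ i a.1.1) _ _)
    (fun U hU => combj cls n h1 h3 U hU)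
  refine ⟨z0, fun z hz hκz => ?_⟩
  obtain ⟨C, hC⟩ := hz0 z hz
  refine ⟨C, fun y hy => ?_⟩
  rw [expj cls κ c z y hκ hκz]
  refine (le_trans (le_abs_self _) (hC y hy)).trans (le_of_eq ?_)
  rw [Real.rpow_natCast]

end Pool.Agent.L7h19.RJ
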