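import Mathlib
import Pool.Agent.L7h19.RJ.Defs
import Pool.Agent.W262.RK.NT1

/-!
# Joint moments of `2 ^ rank`: tuples extended by one
-/

set_option autoImplicit false

namespace Pool.Agent.L7h19.RJ

open Finset Pool.Agent.W262.RK

variable {J : Type} [Fintype J] [DecidableEq J]

/-- the forms outside `P` -/
abbrev Jp (P : Finset J) : Type := {j : J // j ∉ P}

/-- extension by one -/
def ext1 (P : Finset J) (s : Jp P → ℕ) (j : J) : ℕ := if h : j ∉ P then s ⟨j, h⟩ else 1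

lemma ext1_val (P : Finset J) (s : Jp P → ℕ) (j : Jp P) : ext1 P s j.1 = s j := dif_pos j.2

lemma ext1_mem (P : Finset J) (s : Jp P → ℕ) {j : J} (h : j ∈ P) : ext1 P s j = 1 :=
  dif_neg (not_not.2 h)

lemma prod_Jp {M : Type} [CommMonoid M] (P : Finset J) (g : J → M) :
    (∏ j : Jp P, g j.1) = ∏ j ∈ univ.filter (fun j => j ∉ P), g j := by
  rw [← Finset.prod_subtype (p := fun j => j ∉ P)]
  intro j
  rw [mem_filter]
  exact ⟨fun h => h.2, fun h => ⟨mem_univ _, h⟩⟩

lemma prod_ext1 {M : Type} [CommMonoid M] (P : Finset J) (f : J → ℕ → M) (hf : ∀ j, f j 1 = 1)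
    (s : Jp P → ℕ) : ∏ j, f j (ext1 P s j) = ∏ j : Jp P, f j.1 (s j) := by
  have h1 : ∏ j : Jp P, f j.1 (s j) = ∏ j : Jp P, f j.1 (ext1 P s j.1) :=
    prod_congr rfl fun j _ => by rw [ext1_val]
  rw [h1, prod_Jp P (fun j => f j (ext1 P s j))]
  symm
  refine prod_subset (filter_subset _ _) fun j _ hj => ?_
  have hj' : j ∈ P := by
    by_contra h
    exact hj (mem_filter.2 ⟨mem_univ _, h⟩)
  show f j (ext1 P s j) = 1
  rw [ext1_mem P s hj', hf]

lemma ext1_Tup {P : Finset J} {z y : ℕ} {s : Jp P → ℕ} (hs : s ∈ Tup (Jp P) z y) :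
    ext1 P s ∈ Tup J z y := by
  rw [mem_Tup'] at hs ⊢
  constructor
  · intro j
    by_cases h : j ∈ P
    · rw [ext1_mem P s h]; exact one_dvd _
    · have := ext1_val P s ⟨j, h⟩
      rw [this]; exact hs.1 _
  · intro i j hij
    by_cases hi : i ∈ P
    · rw [ext1_mem P s hi]; exact Nat.coprime_one_left _
    by_cases hj : j ∈ P
    · rw [ext1_mem P s hj]; exact Nat.coprime_one_right _
    · have h1 := ext1_val P s ⟨i, hi⟩
      have h2 := ext1_val P s ⟨j, hj⟩
      rw [h1, h2]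
      exact hs.2 _ _ (fun h => hij (Subtype.ext_iff.1 h))

lemma s1_ext1 {P : Finset J} {α β : J → ℤ} {z y : ℕ} {t : ℤ}
    (h : ∀ j ∈ P, ∀ p ∈ PS z y, ¬ (p : ℤ) ∣ ff α β t j) :
    s1 α β z y t = ext1 P (s1 (fun j : Jp P => α j.1) (fun j : Jp P => β j.1) z y t) := by
  funext j
  by_cases hj : j ∈ P
  · rw [ext1_mem P _ hj]
    unfold s1
    rw [filter_false_of_mem, prod_empty]
    intro p hp h2
    exact h j hj p hp h2.1
  · have := ext1_val P (s1 (fun j : Jp P => α j.1) (fun j : Jp P => β j.1) z y t) ⟨j, hj⟩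
    rw [this]
    rfl

lemma s2_ext1 {P : Finset J} {α β : J → ℤ} {z y : ℕ} {t : ℤ}
    (h : ∀ j ∈ P, ∀ p ∈ PS z y, ¬ (p : ℤ) ∣ ff α β t j) :
    s2 α β z y t = ext1 P (s2 (fun j : Jp P => α j.1) (fun j : Jp P => β j.1) z y t) := by
  funext j
  by_cases hj : j ∈ P
  · rw [ext1_mem P _ hj]
    unfold s2
    rw [filter_false_of_mem, prod_empty]
    intro p hp h2
    exact h j hj p hp (dvd_trans ⟨(p : ℤ), by ring⟩ h2)
  · have := ext1_val P (s2 (fun j : Jp P => α j.1) (fun j : Jp P => β j.1) z y t) ⟨j, hj⟩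
    rw [this]
    rfl

lemma NL_congr {m : ℕ} {L L' : ℕ → Bool → Bool → Bool → Bool → Prop}
    (h : ∀ p ∈ m.primeFactors, ∀ a b c d, L p a b c d ↔ L' p a b c d) : NL m L = NL m L' := by
  classical
  unfold NL
  congr 1
  refine filter_congr fun d _ => ?_
  exact forall₂_congr fun p hp => h p hp _ _ _ _

variable {ι : Type} [Fintype ι] [DecidableEq ι]

lemma P3_ext1 (P : Finset J) (cls : ι → J → Option (Fin 4)) (s : Jp P → ℕ) :
    P3 (tw cls) (ext1 P s) = P3 (tw (fun i (j : Jp P) => cls i j.1)) s := by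
  unfold P3
  congr 1
  rw [prod_filter, prod_filter]
  exact prod_ext1 P (fun j n => if tw cls j = 3 then n else 1) (fun j => by simp) s

lemma NBj_ext1 (P : Finset J) (cls : ι → J → Option (Fin 4)) (κ : ι → J → Fin 3 → ℤ)
    (s : Jp P → ℕ) :
    NBj cls κ (ext1 P s) = NBj (fun i (j : Jp P) => cls i j.1) (fun i (j : Jp P) => κ i j.1) s := by
  unfold NBj
  rw [P3_ext1]
  congr 1
  refine sum_congr rfl fun E _ => prod_congr rfl fun i _ => ?_
  have h1 : ∏ j, ext1 P s j = ∏ j, s j := prod_ext1 P (fun _ n => n) (fun _ => rfl) s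
  rw [h1]
  congr 1
  refine NL_congr fun p hp a b c d => ?_
  have hpp := Nat.prime_of_mem_primeFactors hp
  constructor
  · intro h j hj
    exact h j.1 (by rw [ext1_val]; exact hj)
  · intro h j hj
    by_cases hjP : j ∈ P
    · rw [ext1_mem P s hjP] at hj
      exact absurd (Nat.dvd_one.1 hj) hpp.one_lt.ne'
    · have h2 := ext1_val P s ⟨j, hjP⟩
      rw [h2] at hj
      exact h ⟨j, hjP⟩ hj

lemma card_Jp (P : Finset J) : Fintype.card (Jp P) + P.card = Fintype.card J := by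
  rw [Fintype.card_subtype_compl (fun j => j ∈ P)]
  have h1 : Fintype.card {j // j ∈ P} = P.card := Fintype.card_coe P
  have h2 := Finset.card_le_univ P
  rw [h1]
  omega

end Pool.Agent.L7h19.RJ
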