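import Mathlib
import Pool.Agent.L7h19.RJ.Maj
import Pool.Agent.L7h19.RJ.Gen
import Pool.Agent.L7h19.RJ.Rank
import Pool.Agent.L7h19.RJ.Ext
import Pool.Agent.W372.RK2.CNT4
import Pool.Agent.W358.RK2.SVR
import Pool.Agent.W358.RK2.GR

/-!
# Joint moments of `2 ^ rank`: the main theorem
-/

set_option autoImplicit false

namespace Pool.Agent.L7h19.RJ

open Finset Pool.Agent.W262.RK

variable {ι : Type} [Fintype ι] [DecidableEq ι] {J : Type} [Fintype J] [DecidableEq J]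

/-- the product of the `2 ^ rank` -/
noncomputable def RR (cls : ι → J → Option (Fin 4)) (a : ι → Fin 3 → ℤ) (α β : J → ℤ) (t : ℤ) :
    ℝ :=
  ∏ i, (2 : ℝ) ^ Module.finrank ℤ
    (EAB (FJ (cls i) (a i) α β t 0) (FJ (cls i) (a i) α β t 1)).toAffine.Point

lemma RR_nonneg (cls : ι → J → Option (Fin 4)) (a : ι → Fin 3 → ℤ) (α β : J → ℤ) (t : ℤ) :
    0 ≤ RR cls a α β t := prod_nonneg fun i _ => by positivity

lemma neg3_iff (cls : ι → J → Option (Fin 4)) {α β : J → ℤ} {z y : ℕ} {t : ℤ}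
    (hB : Bg α β z) {i : ι} {j : J} {p : ℕ} (hc : cls i j = some 3) (hp : p.Prime)
    (hj : p ∣ s1 α β z y t j) :
    p ∈ neg3 (tw cls) α β t (s1 α β z y t) ↔ jacobiSym (ff α β t j / p) p = -1 := by
  have hmem : s1 α β z y t ∈ Tup J z y := s1_mem hB t
  have h3 : tw cls j = 3 := if_pos ⟨i, hc⟩
  unfold neg3 P3
  rw [mem_filter, Nat.mem_primeFactors]
  constructor
  · rintro ⟨_, l, hl3, hl, hl2⟩
    have : l = j := by
      by_contra hne
      have h4 := (mem_Tup'.1 hmem).2 l j hne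
      exact hp.one_lt.ne' (Nat.dvd_one.1 (h4 ▸ Nat.dvd_gcd hl hj))
    rwa [this] at hl2
  · intro h5
    refine ⟨⟨hp, dvd_trans hj (dvd_prod_of_mem _ (mem_filter.2 ⟨mem_univ _, h3⟩)), ?_⟩,
      j, h3, hj, h5⟩
    exact prod_ne_zero_iff.2 fun l _ => (Tup_pos hmem l).ne'

lemma ff_bound {α β : J → ℤ} {X t : ℕ} (ht : t ≤ X)
    (hX : ∑ j, ((α j).natAbs + (β j).natAbs) ≤ X) (hX1 : 1 ≤ X) (j : J) :
    (ff α β t j).natAbs ≤ X ^ 2 := by
  unfold ff
  have h3 := Int.natAbs_add_le (α j * (t : ℤ)) (β j)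
  rw [Int.natAbs_mul, Int.natAbs_natCast] at h3
  have h4 := single_le_sum (f := fun j => (α j).natAbs + (β j).natAbs)
    (fun _ _ => Nat.zero_le _) (mem_univ j)
  have h6 : (α j).natAbs + (β j).natAbs ≤ X := by omega
  nlinarith [Nat.zero_le (α j).natAbs, Nat.zero_le (β j).natAbs,
    Nat.mul_le_mul_left (α j).natAbs ht, Nat.mul_le_mul_right X h6,
    Nat.le_mul_of_pos_right (β j).natAbs (show 0 < X by omega)]

/-- a large prime value has no small prime factor -/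
lemma no_small {α β : J → ℤ} {z y X t : ℕ} {j : J} (hα : α j ≠ 0) (hβ : (β j).natAbs ≤ y)
    (hy : 2 ≤ y) (hyX : y ^ 4 ≤ X) (ht : Nat.sqrt X < t) (hp : (ff α β t j).natAbs.Prime) :
    ∀ p ∈ PS z y, ¬ (p : ℤ) ∣ ff α β t j := by
  intro p hpS hd
  have hpS := mem_PS.1 hpS
  have h1 : p ∣ (ff α β t j).natAbs := Int.natCast_dvd.1 hd
  have h2 : p = (ff α β t j).natAbs := (Nat.prime_dvd_prime_iff_eq hpS.2 hp).1 h1
  have h3 : y ^ 2 ≤ Nat.sqrt X := Nat.le_sqrt.2 (by nlinarith)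
  have h4 : t ≤ (ff α β t j).natAbs + (β j).natAbs := by
    unfold ff
    have h5 : (α j * (t : ℤ)).natAbs ≤ (α j * (t : ℤ) + β j).natAbs + (β j).natAbs := by
      have := Int.natAbs_add_le (α j * (t : ℤ) + β j) (-β j)
      rw [Int.natAbs_neg] at this
      rwa [show α j * (t : ℤ) + β j + -β j = α j * (t : ℤ) by ring] at this
    rw [Int.natAbs_mul, Int.natAbs_natCast] at h5
    have h6 : t ≤ (α j).natAbs * t := Nat.le_mul_of_pos_left _ (Int.natAbs_pos.2 hα)
    exact h6.trans h5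
  have h7 : p ≤ y := hpS.1.2
  nlinarith

theorem mainj (cls : ι → J → Option (Fin 4)) (n : ι → ℕ) (P : Finset J)
    (h1 : ∀ i, ∀ j ∉ P, cls i j ≠ none → cls i j ≠ some 3 → ∀ i', i' ≠ i → cls i' j = none)
    (h2 : ∀ j ∉ P, ∃ i, cls i j ≠ none)
    (h3 : ∀ i (c : Fin 4), c ≠ 3 →
      (univ.filter (fun j => j ∉ P ∧ cls i j = some c)).card = n i)
    (a : ι → Fin 3 → ℤ) (α β : J → ℤ) (ha : ∀ i k, a i k ≠ 0) (hα : ∀ j, α j ≠ 0)
    (hR : ∀ j l, j ≠ l → Res α β j l ≠ 0)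
    (hF : ∀ i (t : ℤ), FJ (cls i) (a i) α β t 0 - FJ (cls i) (a i) α β t 1 =
      FJ (cls i) (a i) α β t 2) :
    ∃ (X0 : ℕ) (B : ℝ), 0 ≤ B ∧ ∀ X : ℕ,
      (Real.log X) ^ P.card * ∑ t ∈ (Icc 1 X).filter (fun t : ℕ => Nat.sqrt X < t ∧
        (∀ j, ff α β t j ≠ 0) ∧ ∀ j ∈ P, (ff α β t j).natAbs.Prime), RR cls a α β t ≤
      (Real.log X) ^ P.card * ∑ t ∈ Icc 1 X0, RR cls a α β (t : ℤ) + B * X := by
  classical
  set κ : ι → J → Fin 3 → ℤ := fun i j => kapJ (cls i) (a i) α β j with hκdef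
  have hκ0 : ∀ i j l, κ i j l ≠ 0 := fun i j l => kapJ_ne (cls i) (a i) α β hα (ha i) hR j l
  set cls' : ι → Jp P → Option (Fin 4) := fun i j => cls i j.1 with hcls'
  set κ' : ι → Jp P → Fin 3 → ℤ := fun i j => κ i j.1 with hκ'
  set α' : Jp P → ℤ := fun j => α j.1 with hα'
  set β' : Jp P → ℤ := fun j => β j.1 with hβ'
  set N := Fintype.card J with hN
  set N' := Fintype.card (Jp P) with hN'
  set M := Fintype.card ι with hM
  have hNN : N' + P.card = N := card_Jp P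
  obtain ⟨z0, hz0⟩ := majj cls' n (fun i j => h1 i j.1 j.2) (fun j => h2 j.1 j.2) (fun i c hc => by
    rw [← h3 i c hc]
    refine card_bij (fun j _ => j.1) (fun j hj => ?_) (fun j _ j' _ h => Subtype.ext h)
      (fun j hj => ?_)
    · rw [mem_filter] at hj ⊢
      exact ⟨mem_univ _, j.2, hj.2⟩
    · rw [mem_filter] at hj
      exact ⟨⟨j, hj.2.1⟩, mem_filter.2 ⟨mem_univ _, hj.2.2⟩, rfl⟩) κ' (fun i j l => hκ0 i j.1 l) N
  set z : ℕ := z0 + (2 * N + 2) + ∑ i, ∑ k, (a i k).natAbs + ∑ j, (α j).natAbs +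
    ∑ j, ∑ l, (Res α β j l).natAbs + ∑ i, ∑ j, ∑ l, (κ i j l).natAbs with hz
  have hB : Bg α β z := by
    refine ⟨by omega, fun p hp hzp => ⟨fun j h => ?_, fun j l hjl h => ?_⟩⟩
    · have h1 := Nat.le_of_dvd (Int.natAbs_pos.2 (hα j)) (Int.natCast_dvd.1 h)
      have h2 := single_le_sum (f := fun j => (α j).natAbs) (fun _ _ => Nat.zero_le _) (mem_univ j)
      omega
    · have h1 := Nat.le_of_dvd (Int.natAbs_pos.2 (hR j l hjl)) (Int.natCast_dvd.1 h)
      have h2 := single_le_sum (f := fun l => (Res α β j l).natAbs) (fun _ _ => Nat.zero_le _)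
        (mem_univ l)
      have h3 := single_le_sum (f := fun j => ∑ l, (Res α β j l).natAbs) (fun _ _ => Nat.zero_le _)
        (mem_univ j)
      omega
  have hB4 : ∀ i, Big4 (a i) α β z := fun i => ⟨hB, fun p hp hzp k h => by
    have h1 := Nat.le_of_dvd (Int.natAbs_pos.2 (ha i k)) (Int.natCast_dvd.1 h)
    have h2 := single_le_sum (f := fun k => (a i k).natAbs) (fun _ _ => Nat.zero_le _) (mem_univ k)
    have h3 := single_le_sum (f := fun i => ∑ k, (a i k).natAbs) (fun _ _ => Nat.zero_le _)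
      (mem_univ i)
    omega⟩
  have hB' : Bg α' β' z := ⟨by omega, fun p hp hzp => ⟨fun j => (hB.2 p hp hzp).1 j.1,
    fun j l hjl => (hB.2 p hp hzp).2 j.1 l.1 (fun h => hjl (Subtype.ext h))⟩⟩
  have hκz : ∀ i j l, (κ i j l).natAbs ≤ z := by
    intro i j l
    have h1 := single_le_sum (f := fun l => (κ i j l).natAbs) (fun _ _ => Nat.zero_le _) (mem_univ l)
    have h2 := single_le_sum (f := fun j => ∑ l, (κ i j l).natAbs) (fun _ _ => Nat.zero_le _)
      (mem_univ j)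
    have h3 := single_le_sum (f := fun i => ∑ j, ∑ l, (κ i j l).natAbs) (fun _ _ => Nat.zero_le _)
      (mem_univ i)
    omega
  have hz2 : 2 ≤ z := by omega
  obtain ⟨C', hC'⟩ := hz0 z (by omega) (fun i j l => hκz i j.1 l)
  obtain ⟨C, K, y0, hC0, hK1, hcn⟩ :=
    Pool.Agent.W372.RK2.cnt4_of Pool.Agent.W358.RK2.svr J α β (tw cls) z hB
  set y1 : ℕ := y0 + ∑ j, ((α j).natAbs + (β j).natAbs) + 3 with hy1
  set b : ℝ := 4 ^ M with hb
  have hb1 : 1 ≤ b := one_le_pow₀ (by norm_num)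
  set D : ℝ := (16 ^ N) ^ M * 2 ^ P.card with hD
  have hD1 : 1 ≤ D := one_le_mul_of_one_le_of_one_le
    (one_le_pow₀ (one_le_pow₀ (by norm_num))) (one_le_pow₀ (by norm_num))
  obtain ⟨X0, B, hB0, hmain⟩ := nt_u Pool.Agent.W591.RK2.ru Pool.Agent.W358.RK2.gr hb1 α' β' z
    (NBj cls' κ') (C * (4 ^ (z + 2)) ^ M * 2 ^ P.card) C' D (K + 4) y1 N (by omega) hB'
    (fun s => NBj_nonneg _ _ s) (by positivity) hD1 (by omega)
    (fun y hy s e hse => subj cls' κ' hz2 (fun i j l => hκ0 i j.1 l) (fun i j l => hκz i j.1 l)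
      s e hse) hC'
  refine ⟨X0, B, hB0, fun X => ?_⟩
  rcases Nat.eq_zero_or_pos X with hX | hX
  · subst hX
    have h5 : 0 ≤ ∑ t ∈ Icc 1 X0, RR cls a α β (t : ℤ) := sum_nonneg fun t _ => RR_nonneg _ _ _ _ _
    simp only [Icc_eq_empty_of_lt (show (0:ℕ) < 1 by norm_num), filter_empty, sum_empty, mul_zero]
    have h6 : 0 ≤ (Real.log ((0 : ℕ) : ℝ)) ^ P.card := by simp
    positivity
  have hXr : (1 : ℝ) ≤ X := by exact_mod_cast hX
  have hlogX : 0 ≤ Real.log X := Real.log_nonneg hXr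
  set cond : ℕ → Prop := fun t => Nat.sqrt X < t ∧
        (∀ j, ff α β t j ≠ 0) ∧ ∀ j ∈ P, (ff α β t j).natAbs.Prime with hcond
  set R : ℕ → ℝ := fun t => (Real.log X) ^ P.card * (if cond t then RR cls a α β t else 0) with hRdef
  have hR0 : ∀ t, 0 ≤ R t := fun t => by
    rw [hRdef]
    dsimp only
    refine mul_nonneg (pow_nonneg hlogX _) ?_
    split_ifs
    · exact RR_nonneg _ _ _ _ _
    · exact le_rfl
  have hcl := hmain X R hR0 ?_
  · -- conclusion
    have e1 : (Real.log X) ^ P.card * ∑ t ∈ (Icc 1 X).filter cond, RR cls a α β t ≤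
        ∑ t ∈ (Icc 1 X).filter (fun t : ℕ => ∀ j, ff α' β' t j ≠ 0), R t := by
      rw [mul_sum]
      have e2 : ∑ t ∈ (Icc 1 X).filter cond, (Real.log X) ^ P.card * RR cls a α β t =
          ∑ t ∈ (Icc 1 X).filter cond, R t := by
        refine sum_congr rfl fun t ht => ?_
        rw [hRdef]
        dsimp only
        rw [if_pos (mem_filter.1 ht).2]
      rw [e2]
      refine sum_le_sum_of_subset_of_nonneg (fun t ht => ?_) (fun t _ _ => hR0 t)
      rw [mem_filter] at ht ⊢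
      exact ⟨ht.1, fun j => ht.2.2.1 j.1⟩
    have e3 : ∑ t ∈ Icc 1 X0, R t ≤
        (Real.log X) ^ P.card * ∑ t ∈ Icc 1 X0, RR cls a α β (t : ℤ) := by
      rw [mul_sum]
      refine sum_le_sum fun t _ => ?_
      rw [hRdef]
      dsimp only
      refine mul_le_mul_of_nonneg_left ?_ (pow_nonneg hlogX _)
      split_ifs
      · exact le_rfl
      · exact RR_nonneg _ _ _ _ _
    linarith
  -- the bound for the classes
  intro y Y k hy0 hzy hyK hk s hs v hv u hu h8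
  have hy00 : y0 ≤ y := by omega
  have hy3 : 3 ≤ y := by omega
  have hyK' : y ^ K ≤ X := le_trans (Nat.pow_le_pow_right (by omega) (by omega)) hyK
  have hy4 : y ^ 4 ≤ X := le_trans (Nat.pow_le_pow_right (by omega) (by omega)) hyK
  have hyX : y ≤ X := le_trans (Nat.le_self_pow (by omega) y) hyK
  set sx := ext1 P s with hsx
  set vx := ext1 P v with hvx
  set ux := ext1 P u with hux
  have hsxm : sx ∈ Tup J z y := ext1_Tup hs
  have hvxm : vx ∈ Tup J z y := ext1_Tup hv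
  have huxm : ux ∈ Tup J y Y := ext1_Tup hu
  have hyr : (3 : ℝ) ≤ y := by exact_mod_cast hy3
  have hlogy : 0 < Real.log y := Real.log_pos (by linarith)
  set S := ((Icc 1 X).filter (fun t : ℕ => (∀ j, ff α' β' t j ≠ 0) ∧ s1 α' β' z y t = s ∧
    s2 α' β' z y t = v ∧ ∀ j, (u j : ℤ) ∣ ff α' β' t j)).filter cond with hS
  have hsum : ∑ t ∈ (Icc 1 X).filter (fun t : ℕ => (∀ j, ff α' β' t j ≠ 0) ∧ s1 α' β' z y t = s ∧
      s2 α' β' z y t = v ∧ ∀ j, (u j : ℤ) ∣ ff α' β' t j), R t =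
      (Real.log X) ^ P.card * ∑ t ∈ S, RR cls a α β t := by
    rw [hS, sum_filter (p := cond), mul_sum]
  rw [hsum]
  have hfacts : ∀ t ∈ S, t ≤ X ∧ (∀ j, ff α β t j ≠ 0) ∧ s1 α β z y t = sx ∧
      s2 α β z y t = vx ∧ ∀ j, (ux j : ℤ) ∣ ff α β t j := by
    intro t ht
    rw [hS, mem_filter, mem_filter] at ht
    obtain ⟨⟨ht1, ht0, hts, htv, htu⟩, htc⟩ := ht
    have hno : ∀ j ∈ P, ∀ p ∈ PS z y, ¬ (p : ℤ) ∣ ff α β t j := fun j hj =>
      no_small (hα j) (by
        have h4 := single_le_sum (f := fun j => (α j).natAbs + (β j).natAbs)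
          (fun _ _ => Nat.zero_le _) (mem_univ j)
        omega) (by omega) hy4 htc.1 (htc.2.2 j hj)
    refine ⟨(mem_Icc.1 ht1).2, htc.2.1, ?_, ?_, fun j => ?_⟩
    · rw [s1_ext1 hno]
      exact congrArg (ext1 P) hts
    · rw [s2_ext1 hno]
      exact congrArg (ext1 P) htv
    · by_cases hj : j ∈ P
      · rw [hux, ext1_mem P u hj]
        simp
      · have h4 := ext1_val P u ⟨j, hj⟩
        have h5 : ux j = u ⟨j, hj⟩ := h4
        rw [h5]
        exact htu ⟨j, hj⟩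
  set g : Finset ℕ → ℝ := fun E =>
    ∏ i, (NL (∏ j, sx j) (LLso (cls i) (κ i) sx E) : ℝ) with hg
  have hg0 : ∀ E, 0 ≤ g E := fun E => prod_nonneg fun i _ => Nat.cast_nonneg _
  set W : ℝ := (4 ^ (z + 2)) ^ M * ((16 ^ N) ^ M) ^ k * b ^ (∑ j, (v j).primeFactors.card) with hW
  have hW0 : 0 ≤ W := by positivity
  have hvsum : ∑ j, (vx j).primeFactors.card = ∑ j, (v j).primeFactors.card := by
    have h4 := prod_ext1 (M := Multiplicative ℕ) P
      (fun _ m => Multiplicative.ofAdd m.primeFactors.card) (fun _ => by simp) v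
    have h5 : Multiplicative.ofAdd (∑ j, (vx j).primeFactors.card) =
        Multiplicative.ofAdd (∑ j, (v j).primeFactors.card) := by
      rw [ofAdd_sum, ofAdd_sum]
      exact h4
    exact Multiplicative.ofAdd.injective h5
  have hb1' : ∀ t ∈ S, RR cls a α β t ≤ W * g (neg3 (tw cls) α β t sx) := by
    intro t ht
    obtain ⟨htX, ht0, hts, htv, _⟩ := hfacts t ht
    have hr : ∀ i, (2 : ℝ) ^ Module.finrank ℤ
        (EAB (FJ (cls i) (a i) α β t 0) (FJ (cls i) (a i) α β t 1)).toAffine.Point ≤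
        (4 ^ (z + 2) * (16 ^ N) ^ k * 4 ^ (∑ j, (v j).primeFactors.card)) *
          (NL (∏ j, sx j) (LLso (cls i) (κ i) sx (neg3 (tw cls) α β t sx)) : ℝ) := by
      intro i
      have hr := rankj (X := X) (y := y) (k := k) (hB4 i) (ha i) (hκ0 i) (hκz i) (hF i t) ht0
        (fun j => ff_bound htX (by omega) hX j) hX (by omega) hk
        (neg3 (tw cls) α β t (s1 α β z y t))
        (fun j p hc hp hj => neg3_iff cls hB hc hp hj)
      rw [hts, htv, hvsum] at hr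
      exact_mod_cast hr
    have h5 : RR cls a α β t ≤ ∏ i : ι,
        ((4 ^ (z + 2) * (16 ^ N) ^ k * 4 ^ (∑ j, (v j).primeFactors.card)) *
          (NL (∏ j, sx j) (LLso (cls i) (κ i) sx (neg3 (tw cls) α β t sx)) : ℝ)) :=
      prod_le_prod (fun i _ => by positivity) (fun i _ => hr i)
    refine h5.trans (le_of_eq ?_)
    rw [prod_mul_distrib, prod_const, card_univ, hW, hb, hg]
    dsimp only
    congr 1
    rw [mul_pow, mul_pow, ← pow_mul (4 : ℝ) (∑ j, (v j).primeFactors.card),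
      ← pow_mul (4 : ℝ) M, mul_comm M, pow_right_comm (16 ^ N : ℝ)]
  have hneg : ∀ t ∈ S, neg3 (tw cls) α β t sx ∈ (P3 (tw cls) sx).powerset := by
    intro t _
    rw [mem_powerset]
    exact filter_subset _ _
  have h2' : ∑ t ∈ S, g (neg3 (tw cls) α β t sx) =
      ∑ E ∈ (P3 (tw cls) sx).powerset,
        ((S.filter (fun t : ℕ => neg3 (tw cls) α β t sx = E)).card : ℝ) * g E := by
    rw [← sum_fiberwise_of_maps_to hneg]
    refine sum_congr rfl fun E _ => ?_
    rw [← nsmul_eq_mul, ← sum_const]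
    refine sum_congr rfl fun t ht => ?_
    rw [(mem_filter.1 ht).2]
  set Q : ℝ := C * X * (1 / 2) ^ (P3 (tw cls) sx).card * (∏ j, gw 1 N (sx j)) *
        (∏ j, gw 1 N (vx j) / vx j) * (∏ j, 1 / (ux j : ℝ)) / (Real.log y) ^ N with hQ
  have hpu : ∏ j, ux j = ∏ j, u j := prod_ext1 P (fun _ n => n) (fun _ => rfl) u
  have h8x : (∏ j, sx j * vx j * ux j) ^ 8 ≤ X := by
    have hps : ∏ j, sx j = ∏ j, s j := prod_ext1 P (fun _ n => n) (fun _ => rfl) s
    have hpv : ∏ j, vx j = ∏ j, v j := prod_ext1 P (fun _ n => n) (fun _ => rfl) v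
    rw [prod_mul_distrib, prod_mul_distrib, hps, hpv, hpu, ← prod_mul_distrib,
      ← prod_mul_distrib]
    exact h8
  have h3' : ∀ E ∈ (P3 (tw cls) sx).powerset,
      ((S.filter (fun t : ℕ => neg3 (tw cls) α β t sx = E)).card : ℝ) * g E ≤ Q * g E := by
    intro E _
    refine mul_le_mul_of_nonneg_right ?_ (hg0 E)
    refine le_trans ?_ (hcn X y Y hy00 hzy hyK' sx hsxm vx hvxm ux huxm h8x E)
    have h4 : S.filter (fun t : ℕ => neg3 (tw cls) α β t sx = E) ⊆
        (Icc 1 X).filter (fun t : ℕ => s1 α β z y t = sx ∧ s2 α β z y t = vx ∧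
          (∀ j, (ux j : ℤ) ∣ ff α β t j) ∧ neg3 (tw cls) α β t sx = E) := by
      intro t ht
      rw [mem_filter] at ht
      have h5 := hfacts t ht.1
      have h6 : t ∈ Icc 1 X := by
        have := ht.1
        rw [hS, mem_filter, mem_filter] at this
        exact this.1.1
      rw [mem_filter]
      exact ⟨h6, h5.2.2.1, h5.2.2.2.1, h5.2.2.2.2, ht.2⟩
    exact_mod_cast card_le_card h4
  have e1 : NBj cls' κ' s = (1 / 2) ^ (P3 (tw cls) sx).card *
      ∑ E ∈ (P3 (tw cls) sx).powerset, g E := by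
    rw [← NBj_ext1 P cls κ s]
    rfl
  have e2 : (∏ j, b ^ (v j).primeFactors.card * (gw 1 N (v j) / v j)) =
      b ^ (∑ j, (v j).primeFactors.card) * ∏ j, (gw 1 N (v j) / v j) := by
    rw [prod_mul_distrib, prod_pow_eq_pow_sum]
  have e3 : ∏ j, gw 1 N (sx j) = ∏ j, gw 1 N (s j) :=
    prod_ext1 P (fun _ m => gw 1 N m) (fun _ => gw_one 1 N) s
  have e4 : ∏ j, gw 1 N (vx j) / (vx j : ℝ) = ∏ j, gw 1 N (v j) / (v j : ℝ) :=
    prod_ext1 P (fun _ m => gw 1 N m / (m : ℝ)) (fun _ => by rw [gw_one]; norm_num) v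
  have e5 : ∏ j, 1 / (ux j : ℝ) = ∏ j, 1 / (u j : ℝ) :=
    prod_ext1 P (fun _ m => 1 / (m : ℝ)) (fun _ => by norm_num) u
  have hkey : ∑ t ∈ S, RR cls a α β t ≤ W * (Q * ∑ E ∈ (P3 (tw cls) sx).powerset, g E) := by
    calc ∑ t ∈ S, RR cls a α β t ≤ ∑ t ∈ S, W * g (neg3 (tw cls) α β t sx) := sum_le_sum hb1'
      _ = W * ∑ E ∈ (P3 (tw cls) sx).powerset,
          ((S.filter (fun t : ℕ => neg3 (tw cls) α β t sx = E)).card : ℝ) * g E := by
          rw [← mul_sum, h2']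
      _ ≤ W * ∑ E ∈ (P3 (tw cls) sx).powerset, Q * g E :=
          mul_le_mul_of_nonneg_left (sum_le_sum h3') hW0
      _ = _ := by rw [mul_sum (P3 (tw cls) sx).powerset g Q]
  have hlog : (Real.log X) ^ P.card ≤ 2 ^ P.card * (2 ^ P.card) ^ k * (Real.log y) ^ P.card := by
    have h4 : Real.log X ≤ 2 * 2 ^ k * Real.log y := by
      have h5 : Real.log X ≤ k * Real.log ((y : ℝ) + 1) := by
        rw [← Real.log_pow]
        exact Real.log_le_log (by linarith) (by exact_mod_cast hk.le)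
      have h6 : Real.log ((y : ℝ) + 1) ≤ 2 * Real.log y := by
        rw [← Nat.cast_ofNat (R := ℝ), ← Real.log_pow]
        exact Real.log_le_log (by linarith) (by nlinarith)
      have h7 : (k : ℝ) ≤ 2 ^ k := by exact_mod_cast (Nat.lt_two_pow_self (n := k)).le
      have h8 : (k : ℝ) * Real.log ((y : ℝ) + 1) ≤ 2 ^ k * (2 * Real.log y) :=
        mul_le_mul h7 h6 (Real.log_nonneg (by linarith)) (by positivity)
      linarith
    calc (Real.log X) ^ P.card ≤ (2 * 2 ^ k * Real.log y) ^ P.card :=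
          pow_le_pow_left₀ hlogX h4 _
      _ = _ := by
        rw [mul_pow, mul_pow, ← pow_mul (2 : ℝ) k, mul_comm k, pow_mul (2 : ℝ) P.card]
  have hG0 : 0 ≤ ∑ E ∈ (P3 (tw cls) sx).powerset, g E := sum_nonneg fun E _ => hg0 E
  have hQ0 : 0 ≤ Q := by
    have hcz : N ≤ z := by omega
    rw [hQ, e3, e4, e5]
    refine div_nonneg (mul_nonneg (mul_nonneg (mul_nonneg (by positivity)
      (prod_nonneg fun j _ => gw_nn hcz hs j))
      (prod_nonneg fun j _ => div_nonneg (gw_nn hcz hv j) (Nat.cast_nonneg _)))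
      (prod_nonneg fun j _ => by positivity)) (by positivity)
  have hfin : (Real.log X) ^ P.card * ∑ t ∈ S, RR cls a α β t ≤
      (2 ^ P.card * (2 ^ P.card) ^ k * (Real.log y) ^ P.card) *
        (W * (Q * ∑ E ∈ (P3 (tw cls) sx).powerset, g E)) :=
    mul_le_mul hlog hkey (sum_nonneg fun t _ => RR_nonneg _ _ _ _ _) (by positivity)
  refine hfin.trans (le_of_eq ?_)
  have hL : (Real.log y) ^ P.card ≠ 0 := by positivity
  have hL' : (Real.log y) ^ N' ≠ 0 := by positivity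
  have e6 : (Real.log y) ^ N = (Real.log y) ^ N' * (Real.log y) ^ P.card := by
    rw [← pow_add, hNN]
  rw [e1, e2, hQ, hW, e3, e4, e5, e6, hD, mul_pow]
  rw [show Fintype.card (Jp P) = N' from rfl]
  field_simp

end Pool.Agent.L7h19.RJ
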