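import Mathlib
import Pool.Agent.L7h19.RJ.Main

/-!
# Joint moments of `2 ^ rank`: summation over all `t`
-/

set_option autoImplicit false

namespace Pool.Agent.L7h19.RJ

open Finset Pool.Agent.W262.RK

variable {ι : Type} [Fintype ι] [DecidableEq ι] {J : Type} [Fintype J] [DecidableEq J]

lemma log_pow_le (p : ℕ) {X : ℕ} (hX : 1 ≤ X) : (Real.log X) ^ p ≤ (p.factorial : ℝ) * X := by
  have hXr : (1 : ℝ) ≤ X := by exact_mod_cast hX
  have h1 : 0 ≤ Real.log X := Real.log_nonneg hXr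
  have h2 := Real.pow_div_factorial_le_exp (Real.log X) h1 p
  rw [Real.exp_log (by linarith), div_le_iff₀ (by positivity)] at h2
  linarith

/-- the induction over the square roots -/
lemma sqrt_ind (p : ℕ) (S : ℕ → ℝ) (hmono : ∀ X Y, X ≤ Y → S X ≤ S Y) (hS0 : ∀ X, 0 ≤ S X)
    (A B : ℝ) (hA : 0 ≤ A) (hB : 0 ≤ B)
    (h : ∀ X : ℕ, (Real.log X) ^ p * S X ≤ (Real.log X) ^ p * (S (Nat.sqrt X) + A) + B * X) :
    ∃ C : ℝ, 0 ≤ C ∧ ∀ X : ℕ, 1 ≤ X → (Real.log X) ^ p * S X ≤ C * X := by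
  set r0 : ℕ := 2 * 4 ^ p + 2 with hr0
  set X1 : ℕ := (r0 + 1) ^ 2 with hX1
  set C1 : ℝ := (Real.log X1) ^ p * S X1 with hC1
  have hX1p : 1 ≤ X1 := Nat.one_le_pow _ _ (by omega)
  have hC10 : 0 ≤ C1 := mul_nonneg (pow_nonneg (Real.log_nonneg (by exact_mod_cast hX1p)) _) (hS0 _)
  set C : ℝ := 2 * (p.factorial * A + B) + C1 with hC
  have hC0 : 0 ≤ C := by positivity
  refine ⟨C, hC0, ?_⟩
  intro X
  induction X using Nat.strong_induction_on with
  | _ X ih =>
    intro hX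
    have hXr : (1 : ℝ) ≤ X := by exact_mod_cast hX
    have hlogX : 0 ≤ Real.log X := Real.log_nonneg hXr
    rcases Nat.lt_or_ge X X1 with hlt | hge
    · have h1 : (Real.log X) ^ p * S X ≤ C1 := by
        refine mul_le_mul (pow_le_pow_left₀ hlogX (Real.log_le_log (by linarith)
          (by exact_mod_cast hlt.le)) _) (hmono _ _ hlt.le) (hS0 _) (pow_nonneg
          (Real.log_nonneg (by exact_mod_cast hX1p)) _)
      have h2 : C1 ≤ C := by
        have : 0 ≤ 2 * ((p.factorial : ℝ) * A + B) := by positivity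
        linarith
      have h3 : C ≤ C * X := le_mul_of_one_le_right hC0 hXr
      linarith
    · set r := Nat.sqrt X with hr
      have hr1 : r0 ≤ r := by
        rw [hr]
        exact Nat.le_sqrt.2 (by nlinarith)
      have hr2 : 2 ≤ r := by omega
      have hrX : r * r ≤ X := Nat.sqrt_le X
      have hrX' : X < (r + 1) * (r + 1) := Nat.lt_succ_sqrt X
      have hrlt : r < X := by nlinarith
      have h1 := ih r hrlt (by omega)
      have hrr : (2 : ℝ) ≤ r := by exact_mod_cast hr2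
      have hlogr : 0 < Real.log r := Real.log_pos (by linarith)
      have h2 : Real.log X ≤ 4 * Real.log r := by
        have h3 : (X : ℝ) ≤ (r : ℝ) ^ 4 := by
          have h4 : X ≤ r ^ 4 := by
            have h5 : r + 1 ≤ r * r := by nlinarith
            have h6 := Nat.mul_le_mul h5 h5
            have h7 : r * r * (r * r) = r ^ 4 := by ring
            omega
          exact_mod_cast h4
        calc Real.log X ≤ Real.log ((r : ℝ) ^ 4) := Real.log_le_log (by linarith) h3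
          _ = 4 * Real.log r := by rw [Real.log_pow]; norm_num
      have h3 : (Real.log X) ^ p ≤ 4 ^ p * (Real.log r) ^ p := by
        rw [← mul_pow]
        exact pow_le_pow_left₀ hlogX h2 _
      have h4 : (Real.log X) ^ p * S r ≤ 4 ^ p * (C * r) := by
        calc (Real.log X) ^ p * S r ≤ 4 ^ p * (Real.log r) ^ p * S r :=
              mul_le_mul_of_nonneg_right h3 (hS0 _)
          _ = 4 ^ p * ((Real.log r) ^ p * S r) := by ring
          _ ≤ _ := mul_le_mul_of_nonneg_left h1 (by positivity)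
      have h5 : (2 : ℝ) * 4 ^ p * r ≤ X := by
        have h6 : 2 * 4 ^ p * r ≤ X := by nlinarith
        exact_mod_cast h6
      have h6 : (Real.log X) ^ p * A ≤ (p.factorial : ℝ) * A * X := by
        have := mul_le_mul_of_nonneg_right (log_pow_le p hX) hA
        linarith
      have h7 := h X
      have h8 : 4 ^ p * (C * r) ≤ C * X / 2 := by
        have := mul_le_mul_of_nonneg_left h5 hC0
        linarith
      have h9 : (p.factorial : ℝ) * A * X + B * X ≤ C * X / 2 := by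
        have h10 : (p.factorial : ℝ) * A + B ≤ C / 2 := by rw [hC]; linarith
        have := mul_le_mul_of_nonneg_right h10 (by linarith : (0 : ℝ) ≤ X)
        linarith
      calc (Real.log X) ^ p * S X ≤ (Real.log X) ^ p * (S r + A) + B * X := h7
        _ = (Real.log X) ^ p * S r + (Real.log X) ^ p * A + B * X := by ring
        _ ≤ C * X := by linarith

/-- the sum over the positive `t`, if all the forms outside `P` occur -/
theorem fin_pos (cls : ι → J → Option (Fin 4)) (n : ι → ℕ) (P : Finset J)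
    (h1 : ∀ i, ∀ j ∉ P, cls i j ≠ none → cls i j ≠ some 3 → ∀ i', i' ≠ i → cls i' j = none)
    (h2 : ∀ j ∉ P, ∃ i, cls i j ≠ none)
    (h3 : ∀ i (c : Fin 4), c ≠ 3 →
      (univ.filter (fun j => j ∉ P ∧ cls i j = some c)).card = n i)
    (a : ι → Fin 3 → ℤ) (α β : J → ℤ) (ha : ∀ i k, a i k ≠ 0) (hα : ∀ j, α j ≠ 0)
    (hR : ∀ j l, j ≠ l → Res α β j l ≠ 0)
    (hF : ∀ i (t : ℤ), FJ (cls i) (a i) α β t 0 - FJ (cls i) (a i) α β t 1 =
      FJ (cls i) (a i) α β t 2) :
    ∃ C : ℝ, 0 ≤ C ∧ ∀ X : ℕ, 1 ≤ X → (Real.log X) ^ P.card *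
      ∑ t ∈ (Icc 1 X).filter (fun t : ℕ => ∀ j ∈ P, (ff α β t j).natAbs.Prime), RR cls a α β t ≤
        C * X := by
  classical
  obtain ⟨X0, B, hB0, hm⟩ := mainj cls n P h1 h2 h3 a α β ha hα hR hF
  set T0 : ℕ := ∑ j, (β j).natAbs with hT0
  have hzero : ∀ t : ℕ, (¬ ∀ j, ff α β t j ≠ 0) → t ≤ T0 := by
    intro t ht
    push Not at ht
    obtain ⟨j, hj⟩ := ht
    unfold ff at hj
    have h1 : (β j).natAbs = (α j).natAbs * t := by
      have h2 : β j = -(α j * t) := by linarith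
      rw [h2, Int.natAbs_neg, Int.natAbs_mul, Int.natAbs_natCast]
    have h3 := single_le_sum (f := fun j => (β j).natAbs) (fun _ _ => Nat.zero_le _) (mem_univ j)
    have h4 : t ≤ (α j).natAbs * t := Nat.le_mul_of_pos_left _ (Int.natAbs_pos.2 (hα j))
    omega
  set A : ℝ := ∑ t ∈ Icc 1 T0, RR cls a α β (t : ℤ) + ∑ t ∈ Icc 1 X0, RR cls a α β (t : ℤ) with hA
  have hA0 : 0 ≤ A := add_nonneg (sum_nonneg fun t _ => RR_nonneg _ _ _ _ _)
    (sum_nonneg fun t _ => RR_nonneg _ _ _ _ _)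
  refine sqrt_ind P.card (fun X => ∑ t ∈ (Icc 1 X).filter
    (fun t : ℕ => ∀ j ∈ P, (ff α β t j).natAbs.Prime), RR cls a α β t)
    (fun X Y hXY => sum_le_sum_of_subset_of_nonneg (filter_subset_filter _
      (Icc_subset_Icc le_rfl hXY)) (fun t _ _ => RR_nonneg _ _ _ _ _))
    (fun X => sum_nonneg fun t _ => RR_nonneg _ _ _ _ _) A B hA0 hB0 fun X => ?_
  have hlog : 0 ≤ (Real.log X) ^ P.card := by
    rcases Nat.eq_zero_or_pos X with hX | hX
    · subst hX; simp
    · exact pow_nonneg (Real.log_nonneg (by exact_mod_cast hX)) _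
  have hsub : (Icc 1 X).filter (fun t : ℕ => ∀ j ∈ P, (ff α β t j).natAbs.Prime) ⊆
      ((Icc 1 (Nat.sqrt X)).filter (fun t : ℕ => ∀ j ∈ P, (ff α β t j).natAbs.Prime) ∪
        Icc 1 T0) ∪ (Icc 1 X).filter (fun t : ℕ => Nat.sqrt X < t ∧
        (∀ j, ff α β t j ≠ 0) ∧ ∀ j ∈ P, (ff α β t j).natAbs.Prime) := by
    intro t ht
    rw [mem_filter, mem_Icc] at ht
    rw [mem_union, mem_union, mem_filter, mem_filter, mem_Icc, mem_Icc, mem_Icc]
    by_cases h5 : t ≤ Nat.sqrt X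
    · exact Or.inl (Or.inl ⟨⟨ht.1.1, h5⟩, ht.2⟩)
    by_cases h6 : ∀ j, ff α β t j ≠ 0
    · exact Or.inr ⟨ht.1, by omega, h6, ht.2⟩
    · exact Or.inl (Or.inr ⟨ht.1.1, hzero t h6⟩)
  have hun : ∀ S T : Finset ℕ, ∑ t ∈ S ∪ T, RR cls a α β (t : ℤ) ≤
      ∑ t ∈ S, RR cls a α β (t : ℤ) + ∑ t ∈ T, RR cls a α β (t : ℤ) := by
    intro S T
    rw [← sum_union_inter]
    exact le_add_of_nonneg_right (sum_nonneg fun t _ => RR_nonneg _ _ _ _ _)
  have h5 := (sum_le_sum_of_subset_of_nonneg hsub (fun t _ _ => RR_nonneg cls a α β t)).trans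
    ((hun _ _).trans (add_le_add (hun _ _) le_rfl))
  have h6 := mul_le_mul_of_nonneg_left h5 hlog
  have h7 := hm X
  refine h6.trans ?_
  rw [hA]
  linarith [h7]

/-- the sum over the positive `t` -/
theorem fin_pos' (cls : ι → J → Option (Fin 4)) (n : ι → ℕ) (P : Finset J)
    (h1 : ∀ i, ∀ j ∉ P, cls i j ≠ none → cls i j ≠ some 3 → ∀ i', i' ≠ i → cls i' j = none)
    (h3 : ∀ i (c : Fin 4), c ≠ 3 →
      (univ.filter (fun j => j ∉ P ∧ cls i j = some c)).card = n i)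
    (a : ι → Fin 3 → ℤ) (α β : J → ℤ) (ha : ∀ i k, a i k ≠ 0) (hα : ∀ j, α j ≠ 0)
    (hR : ∀ j l, j ≠ l → Res α β j l ≠ 0)
    (hF : ∀ i (t : ℤ), FJ (cls i) (a i) α β t 0 - FJ (cls i) (a i) α β t 1 =
      FJ (cls i) (a i) α β t 2) :
    ∃ C : ℝ, 0 ≤ C ∧ ∀ X : ℕ, 1 ≤ X → (Real.log X) ^ P.card *
      ∑ t ∈ (Icc 1 X).filter (fun t : ℕ => ∀ j ∈ P, (ff α β t j).natAbs.Prime), RR cls a α β t ≤
        C * X := by
  classical
  set U : J → Prop := fun j => j ∈ P ∨ ∃ i, cls i j ≠ none with hU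
  set cls' : ι → {j // U j} → Option (Fin 4) := fun i j => cls i j.1 with hcls'
  set P' : Finset {j // U j} := univ.filter (fun j => j.1 ∈ P) with hP'
  have hmP : ∀ j : {j // U j}, j ∈ P' ↔ j.1 ∈ P := fun j => by
    rw [hP', mem_filter]; exact ⟨fun h => h.2, fun h => ⟨mem_univ _, h⟩⟩
  have hcard : P'.card = P.card := by
    refine card_bij (fun j _ => j.1) (fun j hj => (hmP j).1 hj) (fun j _ j' _ h => Subtype.ext h)
      (fun j hj => ⟨⟨j, Or.inl hj⟩, (hmP _).2 hj, rfl⟩)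
  have hFJ : ∀ i (t : ℤ) k, FJ (cls' i) (a i) (fun j : {j // U j} => α j.1)
      (fun j : {j // U j} => β j.1) t k = FJ (cls i) (a i) α β t k := by
    intro i t k
    unfold FJ
    congr 1
    refine prod_bij (fun l _ => l.1) (fun l hl => ?_) (fun l _ l' _ h => Subtype.ext h)
      (fun l hl => ?_) (fun l _ => rfl)
    · unfold fsJ at hl ⊢
      rw [mem_filter] at hl ⊢
      exact ⟨mem_univ _, hl.2⟩
    · unfold fsJ at hl
      rw [mem_filter] at hl
      have hne : cls i l ≠ none := by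
        rcases hl.2 with h | h <;> rw [h] <;> simp
      refine ⟨⟨l, Or.inr ⟨i, hne⟩⟩, ?_, rfl⟩
      unfold fsJ
      rw [mem_filter]
      exact ⟨mem_univ _, hl.2⟩
  obtain ⟨C, hC0, hC⟩ := fin_pos cls' n P' (fun i j hj => h1 i j.1 (fun h => hj ((hmP j).2 h)))
    (fun j hj => by
      rcases j.2 with h | h
      · exact absurd ((hmP j).2 h) hj
      · exact h)
    (fun i c hc => by
      rw [← h3 i c hc]
      refine card_bij (fun j _ => j.1) (fun j hj => ?_) (fun j _ j' _ h => Subtype.ext h)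
        (fun j hj => ?_)
      · rw [mem_filter] at hj ⊢
        exact ⟨mem_univ _, fun h => hj.2.1 ((hmP j).2 h), hj.2.2⟩
      · rw [mem_filter] at hj
        refine ⟨⟨j, Or.inr ⟨i, by rw [hj.2.2]; simp⟩⟩, ?_, rfl⟩
        rw [mem_filter]
        exact ⟨mem_univ _, fun h => hj.2.1 ((hmP _).1 h), hj.2.2⟩) a
    (fun j : {j // U j} => α j.1) (fun j : {j // U j} => β j.1) ha (fun j => hα j.1)
    (fun j l hjl => hR j.1 l.1 (fun h => hjl (Subtype.ext h)))
    (fun i t => by rw [hFJ, hFJ, hFJ]; exact hF i t)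
  refine ⟨C, hC0, fun X hX => ?_⟩
  have h4 := hC X hX
  rw [hcard] at h4
  refine le_trans (le_of_eq ?_) h4
  congr 1
  refine sum_congr ?_ fun t _ => ?_
  · refine filter_congr fun t _ => ?_
    constructor
    · intro h j hj
      exact h j.1 ((hmP j).1 hj)
    · intro h j hj
      exact h ⟨j, Or.inl hj⟩ ((hmP _).2 hj)
  · unfold RR
    refine prod_congr rfl fun i _ => ?_
    rw [hFJ, hFJ]

lemma FJ_neg (c : J → Option (Fin 4)) (a : Fin 3 → ℤ) (α β : J → ℤ) (t : ℤ) (k : Fin 3) :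
    FJ c a (fun j => -α j) β t k = FJ c a α β (-t) k := by
  unfold FJ
  congr 1
  refine prod_congr rfl fun l _ => ?_
  unfold ff
  ring

/-- the sum over all `t` -/
theorem fin_all (cls : ι → J → Option (Fin 4)) (n : ι → ℕ) (P : Finset J)
    (h1 : ∀ i, ∀ j ∉ P, cls i j ≠ none → cls i j ≠ some 3 → ∀ i', i' ≠ i → cls i' j = none)
    (h3 : ∀ i (c : Fin 4), c ≠ 3 →
      (univ.filter (fun j => j ∉ P ∧ cls i j = some c)).card = n i)
    (a : ι → Fin 3 → ℤ) (α β : J → ℤ) (ha : ∀ i k, a i k ≠ 0) (hα : ∀ j, α j ≠ 0)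
    (hR : ∀ j l, j ≠ l → Res α β j l ≠ 0)
    (hF : ∀ i (t : ℤ), FJ (cls i) (a i) α β t 0 - FJ (cls i) (a i) α β t 1 =
      FJ (cls i) (a i) α β t 2) :
    ∃ C : ℝ, ∀ X : ℕ, 1 ≤ X → (Real.log X) ^ P.card *
      ∑ t ∈ (Icc (-(X : ℤ)) X).filter (fun t : ℤ => ∀ j ∈ P, (ff α β t j).natAbs.Prime),
        RR cls a α β t ≤ C * X := by
  classical
  obtain ⟨C1, hC10, hC1⟩ := fin_pos' cls n P h1 h3 a α β ha hα hR hF
  obtain ⟨C2, hC20, hC2⟩ := fin_pos' cls n P h1 h3 a (fun j => -α j) β ha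
    (fun j => neg_ne_zero.2 (hα j))
    (fun j l hjl => by
      have := hR j l hjl
      unfold Res at this ⊢
      intro h
      apply this
      linarith)
    (fun i t => by rw [FJ_neg, FJ_neg, FJ_neg]; exact hF i (-t))
  have hff : ∀ (t : ℤ) (j : J), ff (fun j => -α j) β t j = ff α β (-t) j := by
    intro t j
    unfold ff
    ring
  have hRR : ∀ t : ℤ, RR cls a (fun j => -α j) β t = RR cls a α β (-t) := by
    intro t
    unfold RR
    refine prod_congr rfl fun i _ => ?_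
    rw [FJ_neg, FJ_neg]
  set R0 : ℝ := RR cls a α β 0 with hR0d
  have hR0 : 0 ≤ R0 := RR_nonneg _ _ _ _ _
  refine ⟨C1 + C2 + P.card.factorial * R0, fun X hX => ?_⟩
  have hXr : (1 : ℝ) ≤ X := by exact_mod_cast hX
  have hlog : 0 ≤ (Real.log X) ^ P.card := pow_nonneg (Real.log_nonneg hXr) _
  set S1 := (Icc 1 X).filter (fun t : ℕ => ∀ j ∈ P, (ff α β t j).natAbs.Prime) with hS1
  set S2 := (Icc 1 X).filter (fun t : ℕ => ∀ j ∈ P, (ff (fun j => -α j) β t j).natAbs.Prime)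
    with hS2
  have hsub : (Icc (-(X : ℤ)) X).filter (fun t : ℤ => ∀ j ∈ P, (ff α β t j).natAbs.Prime) ⊆
      (S1.image (fun t : ℕ => (t : ℤ)) ∪ S2.image (fun t : ℕ => -(t : ℤ))) ∪ {0} := by
    intro t ht
    rw [mem_filter, mem_Icc] at ht
    rw [mem_union, mem_union, mem_image, mem_image, mem_singleton]
    rcases lt_trichotomy t 0 with h | h | h
    · left; right
      have e : ((t.natAbs : ℕ) : ℤ) = -t := by omega
      refine ⟨t.natAbs, mem_filter.2 ⟨mem_Icc.2 (by omega), fun j hj => ?_⟩, by omega⟩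
      rw [hff, e, neg_neg]
      exact ht.2 j hj
    · right; exact h
    · left; left
      have e : ((t.natAbs : ℕ) : ℤ) = t := by omega
      refine ⟨t.natAbs, mem_filter.2 ⟨mem_Icc.2 (by omega), fun j hj => ?_⟩, e⟩
      rw [e]
      exact ht.2 j hj
  have hun : ∀ S T : Finset ℤ, ∑ t ∈ S ∪ T, RR cls a α β t ≤
      ∑ t ∈ S, RR cls a α β t + ∑ t ∈ T, RR cls a α β t := by
    intro S T
    rw [← sum_union_inter]
    exact le_add_of_nonneg_right (sum_nonneg fun t _ => RR_nonneg _ _ _ _ _)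
  have e3 : ∑ t ∈ S1.image (fun t : ℕ => (t : ℤ)), RR cls a α β t =
      ∑ t ∈ S1, RR cls a α β (t : ℤ) :=
    sum_image (fun i _ j _ hij => by exact_mod_cast hij)
  have e4 : ∑ t ∈ S2.image (fun t : ℕ => -(t : ℤ)), RR cls a α β t =
      ∑ t ∈ S2, RR cls a (fun j => -α j) β (t : ℤ) := by
    rw [sum_image (fun i _ j _ hij => by simpa using hij)]
    exact sum_congr rfl fun t _ => (hRR t).symm
  have h5 := (sum_le_sum_of_subset_of_nonneg hsub (fun t _ _ => RR_nonneg cls a α β t)).trans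
    ((hun _ _).trans (add_le_add (hun _ _) le_rfl))
  rw [e3, e4, sum_singleton] at h5
  have h6 := mul_le_mul_of_nonneg_left h5 hlog
  have h7 := hC1 X hX
  have h8 := hC2 X hX
  have h9 : (Real.log X) ^ P.card * R0 ≤ (P.card.factorial : ℝ) * X * R0 :=
    mul_le_mul_of_nonneg_right (log_pow_le _ hX) hR0
  refine h6.trans ?_
  rw [mul_add, mul_add]
  linarith

end Pool.Agent.L7h19.RJ
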