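import Mathlib
import Pool.Agent.L7h19.RJ.Fin

/-!
# Joint moments of `2 ^ rank`: the families given by sets of forms
-/

set_option autoImplicit false

namespace Pool.Agent.L7h19.RJ

open Finset Pool.Agent.W262.RK

variable {J : Type} [Fintype J] [DecidableEq J]

/-- the class of the form `j` if `T` is the set of the common factors and `S k` is the set of the
other forms of `F k` -/
def clsS (T : Finset J) (S : Fin 3 → Finset J) (j : J) : Option (Fin 4) :=
  if j ∈ T then some 3 else if j ∈ S 0 then some 0 else if j ∈ S 1 then some 1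
  else if j ∈ S 2 then some 2 else none

lemma clsS_T {T : Finset J} {S : Fin 3 → Finset J} {j : J} :
    clsS T S j = some 3 ↔ j ∈ T := by
  unfold clsS
  split_ifs with h1 h2 h3 h4
  · exact ⟨fun _ => h1, fun _ => rfl⟩
  · exact ⟨fun h => absurd (Option.some.inj h) (by decide), fun h => absurd h h1⟩
  · exact ⟨fun h => absurd (Option.some.inj h) (by decide), fun h => absurd h h1⟩
  · exact ⟨fun h => absurd (Option.some.inj h) (by decide), fun h => absurd h h1⟩
  · exact ⟨fun h => absurd h (by simp), fun h => absurd h h1⟩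

lemma clsS_S {T : Finset J} {S : Fin 3 → Finset J} (hST : ∀ k, Disjoint (S k) T)
    (hSS : ∀ k k', k ≠ k' → Disjoint (S k) (S k')) {j : J} (k : Fin 3) :
    clsS T S j = some k.castSucc ↔ j ∈ S k := by
  have hd : ∀ k k' : Fin 3, k ≠ k' → j ∈ S k → j ∉ S k' := fun k k' h h1 h2 =>
    (disjoint_left.1 (hSS k k' h)) h1 h2
  have hT : ∀ k, j ∈ S k → j ∉ T := fun k h1 h2 => (disjoint_left.1 (hST k)) h1 h2
  unfold clsS
  constructor
  · intro h
    split_ifs at h with h1 h2 h3 h4
    · exact absurd (Option.some.inj h) (by revert k; decide)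
    · have : k = 0 := by
        have := Option.some.inj h
        revert this; revert k; decide
      rw [this]; exact h2
    · have : k = 1 := by
        have := Option.some.inj h
        revert this; revert k; decide
      rw [this]; exact h3
    · have : k = 2 := by
        have := Option.some.inj h
        revert this; revert k; decide
      rw [this]; exact h4
  · intro h
    rw [if_neg (hT k h)]
    have hk : k = 0 ∨ k = 1 ∨ k = 2 := by
      clear h
      revert k
      decide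
    rcases hk with rfl | rfl | rfl
    · rw [if_pos h]; rfl
    · rw [if_neg (hd 1 0 (by decide) h), if_pos h]; rfl
    · rw [if_neg (hd 2 0 (by decide) h), if_neg (hd 2 1 (by decide) h), if_pos h]; rfl

lemma clsS_ne {T : Finset J} {S : Fin 3 → Finset J} {j : J} (h : clsS T S j ≠ none)
    (h3 : clsS T S j ≠ some 3) : ∃ k, j ∈ S k := by
  unfold clsS at h h3
  split_ifs at h h3 with h1 h2 h4 h5
  · exact absurd rfl h3
  · exact ⟨0, h2⟩
  · exact ⟨1, h4⟩
  · exact ⟨2, h5⟩
  · exact absurd rfl h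

lemma clsS_none {T : Finset J} {S : Fin 3 → Finset J} {j : J} (hT : j ∉ T) (hS : ∀ k, j ∉ S k) :
    clsS T S j = none := by
  unfold clsS
  rw [if_neg hT, if_neg (hS 0), if_neg (hS 1), if_neg (hS 2)]

lemma FJ_clsS {T : Finset J} {S : Fin 3 → Finset J} (hST : ∀ k, Disjoint (S k) T)
    (hSS : ∀ k k', k ≠ k' → Disjoint (S k) (S k')) (a : Fin 3 → ℤ) (α β : J → ℤ) (t : ℤ)
    (k : Fin 3) :
    FJ (clsS T S) a α β t k =
      a k * (∏ j ∈ T, (α j * t + β j)) * ∏ j ∈ S k, (α j * t + β j) := by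
  have h : fsJ (clsS T S) k = T ∪ S k := by
    ext j
    unfold fsJ
    rw [mem_filter, clsS_S hST hSS, clsS_T, mem_union]
    exact ⟨fun h => h.2.symm, fun h => ⟨mem_univ _, h.symm⟩⟩
  unfold FJ
  rw [h, prod_union (hST k).symm, mul_assoc]
  rfl

variable {ι : Type} [Fintype ι] [DecidableEq ι]

/-- the theorem for families given by sets of forms -/
theorem fin_sets (P : Finset J) (T : ι → Finset J) (S : ι → Fin 3 → Finset J) (n : ι → ℕ)
    (hST : ∀ i k, Disjoint (S i k) (T i))
    (hSS : ∀ i k k', k ≠ k' → Disjoint (S i k) (S i k'))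
    (hex : ∀ i i', i ≠ i' → ∀ k, ∀ j ∈ S i k, j ∉ P → j ∉ T i' ∧ ∀ k', j ∉ S i' k')
    (hn : ∀ i k, (S i k \ P).card = n i)
    (a : ι → Fin 3 → ℤ) (α β : J → ℤ) (ha : ∀ i k, a i k ≠ 0) (hα : ∀ j, α j ≠ 0)
    (hR : ∀ j l, j ≠ l → α j * β l ≠ α l * β j)
    (hF : ∀ i (t : ℤ), a i 0 * (∏ j ∈ T i, (α j * t + β j)) * ∏ j ∈ S i 0, (α j * t + β j) -
      a i 1 * (∏ j ∈ T i, (α j * t + β j)) * ∏ j ∈ S i 1, (α j * t + β j) =
      a i 2 * (∏ j ∈ T i, (α j * t + β j)) * ∏ j ∈ S i 2, (α j * t + β j)) :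
    ∃ C : ℝ, ∀ X : ℕ, 1 ≤ X → (Real.log X) ^ P.card *
      ∑ t ∈ (Icc (-(X : ℤ)) X).filter (fun t : ℤ => ∀ j ∈ P, (α j * t + β j).natAbs.Prime),
        ∏ i, (2 : ℝ) ^ Module.finrank ℤ (EAB
          (a i 0 * (∏ j ∈ T i, (α j * t + β j)) * ∏ j ∈ S i 0, (α j * t + β j))
          (a i 1 * (∏ j ∈ T i, (α j * t + β j)) * ∏ j ∈ S i 1, (α j * t + β j))).toAffine.Point ≤
        C * X := by
  have hFJ : ∀ i t k, FJ (clsS (T i) (S i)) (a i) α β t k =
      a i k * (∏ j ∈ T i, (α j * t + β j)) * ∏ j ∈ S i k, (α j * t + β j) :=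
    fun i t k => FJ_clsS (hST i) (hSS i) (a i) α β t k
  obtain ⟨C, hC⟩ := fin_all (fun i => clsS (T i) (S i)) n P
    (fun i j hj h h3 i' hi' => by
      obtain ⟨k, hk⟩ := clsS_ne h h3
      have := hex i i' (Ne.symm hi') k j hk hj
      exact clsS_none this.1 this.2)
    (fun i c hc => by
      have hc' : ∃ k : Fin 3, c = k.castSucc := by
        revert c
        decide
      obtain ⟨k, rfl⟩ := hc'
      rw [← hn i k]
      congr 1
      ext j
      rw [mem_filter, mem_sdiff, clsS_S (hST i) (hSS i)]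
      exact ⟨fun h => ⟨h.2.2, h.2.1⟩, fun h => ⟨mem_univ _, h.2, h.1⟩⟩)
    a α β ha hα (fun j l hjl => sub_ne_zero.2 (hR j l hjl))
    (fun i t => by rw [hFJ, hFJ, hFJ]; exact hF i t)
  refine ⟨C, fun X hX => ?_⟩
  have h4 := hC X hX
  refine le_trans (le_of_eq ?_) h4
  congr 1
  refine sum_congr rfl fun t _ => ?_
  unfold RR
  refine prod_congr rfl fun i _ => ?_
  rw [hFJ, hFJ]

end Pool.Agent.L7h19.RJ
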